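import Pool.Agent.Zk85.GL.Ind

/-!
# Groups of matrices with bounded denominators over polynomial rings in many variables
-/

set_option autoImplicit false

namespace Pool.Agent.Zk85.GL

open Matrix
open Pool.Agent.Y110.FJ (ClosedE)
open Pool.Agent.N509.TX (AcylF of_fg)
open Pool.Agent.R941.FJ (C_equiv C_le)

variable {C : ∀ (G : Type) [Group G], Prop}

section

variable {A : Type} [CommRing A] [IsDomain A]

theorem BD.fin (hC : ClosedE C) (hM : ∀ (G : Type) [Group G], derivedSeries G 2 = ⊥ → C G)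
    (hAc : AcylF C) (hA : BD C A) (n : ℕ) : BD C (MvPolynomial (Fin n) A) := by
  induction n with
  | zero => exact hA.equiv (MvPolynomial.isEmptyRingEquiv A (Fin 0)).symm
  | succ n ih =>
    exact (BD.poly hC hM hAc ih).equiv (MvPolynomial.finSuccEquiv A n).symm.toRingEquiv

theorem BD.finite (hC : ClosedE C) (hM : ∀ (G : Type) [Group G], derivedSeries G 2 = ⊥ → C G)
    (hAc : AcylF C) (hA : BD C A) (σ : Type) [Finite σ] : BD C (MvPolynomial σ A) := by
  obtain ⟨n, ⟨e⟩⟩ := Finite.exists_equiv_fin σ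
  exact (BD.fin hC hM hAc hA n).equiv (MvPolynomial.renameEquiv A e.symm).toRingEquiv

/-- **any set of variables** -/
theorem BD.mv (hC : ClosedE C) (hM : ∀ (G : Type) [Group G], derivedSeries G 2 = ⊥ → C G)
    (hAc : AcylF C) (hA : BD C A) (I : Type) : BD C (MvPolynomial I A) := by
  classical
  rintro L _ _ hinj Γ ⟨d, hd, hΓ⟩
  obtain ⟨g, hg⟩ : ∃ g : MvPolynomial I A →+* L, g = algebraMap (MvPolynomial I A) L := ⟨_, rfl⟩
  rw [← hg] at hinj
  rw [← hg] at hΓ
  choose! a ha using hΓ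
  refine of_fg hC fun H hH => ?_
  obtain ⟨S, hS⟩ := (Group.fg_iff_subgroup_fg H).1 hH
  obtain ⟨s, hs⟩ : ∃ s : Finset I, s = d.vars ∪ S.biUnion fun γ =>
      (Finset.univ : Finset (Fin 2 × Fin 2)).biUnion fun k =>
        (a (γ : G2 L) k.1 k.2).vars ∪ (a ((γ : G2 L)⁻¹) k.1 k.2).vars := ⟨_, rfl⟩
  have hsd : d.vars ⊆ s := by
    rw [hs]
    exact Finset.subset_union_left
  have hsa : ∀ γ ∈ S, ∀ i j, (a (γ : G2 L) i j).vars ⊆ s ∧ (a ((γ : G2 L)⁻¹) i j).vars ⊆ s := by
    intro γ hγ i j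
    rw [hs]
    constructor
    · refine Finset.Subset.trans ?_ Finset.subset_union_right
      refine Finset.Subset.trans ?_ (Finset.subset_biUnion_of_mem _ hγ)
      refine Finset.Subset.trans ?_ (Finset.subset_biUnion_of_mem _ (Finset.mem_univ (i, j)))
      exact Finset.subset_union_left
    · refine Finset.Subset.trans ?_ Finset.subset_union_right
      refine Finset.Subset.trans ?_ (Finset.subset_biUnion_of_mem _ hγ)
      refine Finset.Subset.trans ?_ (Finset.subset_biUnion_of_mem _ (Finset.mem_univ (i, j)))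
      exact Finset.subset_union_right
  -- the retraction
  obtain ⟨ι, hιC, hιX⟩ : ∃ ι : MvPolynomial s A →+* MvPolynomial I A,
      (∀ c, ι (MvPolynomial.C c) = MvPolynomial.C c) ∧
        ∀ i : s, ι (MvPolynomial.X i) = MvPolynomial.X (i : I) :=
    ⟨(MvPolynomial.rename (Subtype.val : s → I)).toRingHom, fun c => MvPolynomial.rename_C _ c,
      fun i => MvPolynomial.rename_X _ i⟩
  obtain ⟨r, hrC, hrX⟩ : ∃ r : MvPolynomial I A →+* MvPolynomial s A,
      (∀ c, r (MvPolynomial.C c) = MvPolynomial.C c) ∧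
        ∀ i : s, r (MvPolynomial.X (i : I)) = MvPolynomial.X i := by
    refine ⟨MvPolynomial.eval₂Hom MvPolynomial.C
      (fun i => if h : i ∈ s then MvPolynomial.X ⟨i, h⟩ else 0), fun c => ?_, fun i => ?_⟩
    · rw [MvPolynomial.coe_eval₂Hom, MvPolynomial.eval₂_C]
    · rw [MvPolynomial.coe_eval₂Hom, MvPolynomial.eval₂_X, dif_pos i.2]
  have hrι : ∀ p, r (ι p) = p := by
    intro p
    have h1 : (r.comp ι) = RingHom.id _ := by
      refine MvPolynomial.ringHom_ext ?_ ?_
      · intro c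
        rw [RingHom.comp_apply, hιC, hrC, RingHom.id_apply]
      · intro i
        rw [RingHom.comp_apply, hιX, hrX, RingHom.id_apply]
    exact congrArg (fun f : MvPolynomial s A →+* MvPolynomial s A => f p) h1
  have hιinj : Function.Injective ι := fun p q h => by rw [← hrι p, h, hrι]
  have hfix : ∀ p : MvPolynomial I A, p.vars ⊆ s → ι (r p) = p := by
    intro p hp
    have h1 := MvPolynomial.hom_congr_vars (f₁ := ι.comp r) (f₂ := RingHom.id _) (p₁ := p) (p₂ := p)
      (by
        ext c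
        rw [RingHom.comp_apply, RingHom.comp_apply, hrC, hιC]
        rfl) (by
        intro i hi _
        rw [RingHom.comp_apply, hrX ⟨i, hp hi⟩, hιX]
        rfl) rfl
    exact h1
  -- elements of the small field
  obtain ⟨Pr, hPr⟩ : ∃ Pr : L → Prop, Pr = fun l => ∃ u v : MvPolynomial s A, u ≠ 0 ∧
    g (ι u) * l = g (ι v) := ⟨_, rfl⟩
  have P0 : Pr 0 := by
    rw [hPr]
    exact ⟨1, 0, one_ne_zero, by rw [mul_zero, map_zero, map_zero]⟩
  have P1 : Pr 1 := by
    rw [hPr]
    exact ⟨1, 1, one_ne_zero, by rw [mul_one]⟩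
  have Padd : ∀ x y, Pr x → Pr y → Pr (x + y) := by
    intro x y hx hy
    rw [hPr] at hx hy ⊢
    obtain ⟨u, v, hu, h⟩ := hx
    obtain ⟨u', v', hu', h'⟩ := hy
    refine ⟨u * u', v * u' + v' * u, mul_ne_zero hu hu', ?_⟩
    rw [map_mul, map_mul, map_add, map_add, map_mul, map_mul, map_mul, map_mul, ← h, ← h']
    ring
  have Pmul : ∀ x y, Pr x → Pr y → Pr (x * y) := by
    intro x y hx hy
    rw [hPr] at hx hy ⊢
    obtain ⟨u, v, hu, h⟩ := hx
    obtain ⟨u', v', hu', h'⟩ := hy
    refine ⟨u * u', v * v', mul_ne_zero hu hu', ?_⟩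
    rw [map_mul, map_mul, map_mul, map_mul, ← h, ← h']
    ring
  have hrd : r d ≠ 0 := by
    intro h
    apply hd
    rw [← hfix d hsd, h, map_zero]
  have hcl : ∀ γ : Γ, γ ∈ Subgroup.closure (S : Set Γ) →
      (∀ i j, Pr (((γ : G2 L) : Matrix (Fin 2) (Fin 2) L) i j)) ∧
        ∀ i j, Pr ((((γ : G2 L)⁻¹ : G2 L) : Matrix (Fin 2) (Fin 2) L) i j) := by
    intro γ hγ
    induction hγ using Subgroup.closure_induction with
    | mem γ hγ =>
      constructor
      · intro i j
        rw [hPr]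
        refine ⟨r d, r (a γ i j), hrd, ?_⟩
        rw [hfix d hsd, hfix _ (hsa γ hγ i j).1]
        exact (ha γ γ.2 i j).symm
      · intro i j
        rw [hPr]
        refine ⟨r d, r (a (γ : G2 L)⁻¹ i j), hrd, ?_⟩
        rw [hfix d hsd, hfix _ (hsa γ hγ i j).2]
        exact (ha _ (inv_mem γ.2) i j).symm
    | one =>
      have h1 : ∀ i j, Pr (((1 : G2 L) : Matrix (Fin 2) (Fin 2) L) i j) := by
        intro i j
        rw [Units.val_one, Matrix.one_apply]
        split_ifs
        · exact P1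
        · exact P0
      refine ⟨h1, ?_⟩
      have h2 : (((1 : Γ) : G2 L))⁻¹ = 1 := by
        rw [OneMemClass.coe_one, inv_one]
      rw [h2]
      exact h1
    | mul x y _ _ hx hy =>
      constructor
      · intro i j
        show Pr ((((x : G2 L) * (y : G2 L) : G2 L) : Matrix (Fin 2) (Fin 2) L) i j)
        rw [mul2]
        exact Padd _ _ (Pmul _ _ (hx.1 _ _) (hy.1 _ _)) (Pmul _ _ (hx.1 _ _) (hy.1 _ _))
      · intro i j
        have h2 : (((x * y : Γ) : G2 L))⁻¹ = (y : G2 L)⁻¹ * (x : G2 L)⁻¹ := by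
          rw [Subgroup.coe_mul, _root_.mul_inv_rev]
        rw [h2, mul2]
        exact Padd _ _ (Pmul _ _ (hy.2 _ _) (hx.2 _ _)) (Pmul _ _ (hy.2 _ _) (hx.2 _ _))
    | inv x _ hx =>
      refine ⟨fun i j => hx.2 i j, fun i j => ?_⟩
      have h2 : (((x⁻¹ : Γ) : G2 L))⁻¹ = (x : G2 L) := by
        rw [Subgroup.coe_inv, inv_inv]
      rw [h2]
      exact hx.1 i j
  rw [hS] at hcl
  have h1 : C ↥(H.map Γ.subtype) := by
    let _ : Algebra (MvPolynomial s A) L := (g.comp ι).toAlgebra
    have hal : ∀ p, algebraMap (MvPolynomial s A) L p = g (ι p) := fun p => rfl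
    refine BD.finite hC hM hAc hA s L (hinj.comp hιinj) _ ⟨r d, hrd, ?_⟩
    rintro _ ⟨γ, hγ, rfl⟩ i j
    refine ⟨r (a γ i j), ?_⟩
    rw [hal, hal, hfix d hsd]
    obtain ⟨u, v, hu, h⟩ : ∃ u v : MvPolynomial s A, u ≠ 0 ∧
        g (ι u) * ((γ : G2 L) : Matrix (Fin 2) (Fin 2) L) i j = g (ι v) := by
      have := (hcl γ hγ).1 i j
      rwa [hPr] at this
    have h2 := ha γ γ.2 i j
    have h3 : ι u * a γ i j = d * ι v := by
      apply hinj
      rw [map_mul, map_mul, h2, ← h]
      ring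
    have h4 : ι u * ι (r (a γ i j)) = d * ι v := by
      have h5 := congrArg (fun p => ι (r p)) h3
      simp only [map_mul, hrι] at h5
      rw [hfix d hsd] at h5
      exact h5
    have h5 : ι (r (a γ i j)) = a γ i j := by
      have h6 : ι u ≠ 0 := fun h => hu (hιinj (by rw [h, map_zero]))
      exact mul_left_cancel₀ h6 (h4.trans h3.symm)
    rw [h5, h2]
    rfl
  exact C_equiv hC.base (H.equivMapOfInjective Γ.subtype Γ.subtype_injective) h1

end

end Pool.Agent.Zk85.GL
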