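import Pool.Agent.Zk85.GL.Mv

/-!
# Algebraic extensions of finite fields
-/

set_option autoImplicit false

namespace Pool.Agent.Zk85.GL

open Matrix
open Pool.Agent.Y110.FJ (ClosedE)
open Pool.Agent.N509.TX (AcylF of_fg)
open Pool.Agent.R941.FJ (C_equiv C_le)

variable {C : ∀ (G : Type) [Group G], Prop}

theorem C_fp (hC : ClosedE C) (p : ℕ) [Fact p.Prime] (K : Type) [Field K] [Algebra (ZMod p) K]
    [Algebra.IsAlgebraic (ZMod p) K] : C (G2 K) := by
  classical
  refine of_fg hC fun H hH => ?_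
  obtain ⟨S, hS⟩ := (Group.fg_iff_subgroup_fg H).1 hH
  obtain ⟨T, hT⟩ : ∃ T : Finset K, T = S.biUnion fun γ =>
      (Finset.univ : Finset (Fin 2 × Fin 2)).biUnion fun k =>
        {(γ : Matrix (Fin 2) (Fin 2) K) k.1 k.2,
          ((γ⁻¹ : G2 K) : Matrix (Fin 2) (Fin 2) K) k.1 k.2} := ⟨_, rfl⟩
  have hTm : ∀ γ ∈ S, ∀ i j, (γ : Matrix (Fin 2) (Fin 2) K) i j ∈ T ∧
      ((γ⁻¹ : G2 K) : Matrix (Fin 2) (Fin 2) K) i j ∈ T := by
    intro γ hγ i j
    rw [hT]
    constructor
    · exact Finset.mem_biUnion.2 ⟨γ, hγ, Finset.mem_biUnion.2 ⟨(i, j), Finset.mem_univ _, by simp⟩⟩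
    · exact Finset.mem_biUnion.2 ⟨γ, hγ, Finset.mem_biUnion.2 ⟨(i, j), Finset.mem_univ _, by simp⟩⟩
  obtain ⟨B, hB⟩ : ∃ B : Subalgebra (ZMod p) K, B = Algebra.adjoin (ZMod p) (T : Set K) := ⟨_, rfl⟩
  have hBfin : Finite B := by
    have h1 : (Algebra.adjoin (ZMod p) (T : Set K)).toSubmodule.FG :=
      fg_adjoin_of_finite T.finite_toSet fun x _ => Algebra.IsIntegral.isIntegral x
    rw [← hB] at h1
    have h2 : Module.Finite (ZMod p) B := Module.Finite.iff_fg.2 h1
    exact Module.finite_of_finite (ZMod p)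
  have hcl : ∀ γ ∈ Subgroup.closure (S : Set (G2 K)),
      (∀ i j, (γ : Matrix (Fin 2) (Fin 2) K) i j ∈ B) ∧
        ∀ i j, ((γ⁻¹ : G2 K) : Matrix (Fin 2) (Fin 2) K) i j ∈ B := by
    intro γ hγ
    induction hγ using Subgroup.closure_induction with
    | mem γ hγ =>
      rw [hB]
      exact ⟨fun i j => Algebra.subset_adjoin (hTm γ hγ i j).1,
        fun i j => Algebra.subset_adjoin (hTm γ hγ i j).2⟩
    | one =>
      have h1 : ∀ i j, ((1 : G2 K) : Matrix (Fin 2) (Fin 2) K) i j ∈ B := by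
        intro i j
        rw [Units.val_one, Matrix.one_apply]
        split_ifs
        · exact one_mem B
        · exact zero_mem B
      refine ⟨h1, ?_⟩
      rw [inv_one]
      exact h1
    | mul x y _ _ hx hy =>
      constructor
      · intro i j
        rw [mul2]
        exact add_mem (mul_mem (hx.1 _ _) (hy.1 _ _)) (mul_mem (hx.1 _ _) (hy.1 _ _))
      · intro i j
        rw [_root_.mul_inv_rev, mul2]
        exact add_mem (mul_mem (hy.2 _ _) (hx.2 _ _)) (mul_mem (hy.2 _ _) (hx.2 _ _))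
    | inv x _ hx =>
      refine ⟨hx.2, ?_⟩
      rw [inv_inv]
      exact hx.1
  rw [hS] at hcl
  have hfin : Finite H := by
    refine Finite.of_injective (fun γ : H => fun i j : Fin 2 =>
      (⟨((γ : G2 K) : Matrix (Fin 2) (Fin 2) K) i j, (hcl γ γ.2).1 i j⟩ : B)) ?_
    intro a b hab
    apply Subtype.ext
    apply Units.ext
    ext i j
    exact congrArg Subtype.val (congrFun (congrFun hab i) j)
  exact Pool.Agent.Y430.SS.of_finite hC.base _ hfin

end Pool.Agent.Zk85.GL
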