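import Pool.Agent.Zk85.GL.Tre
import Pool.Agent.N509.TX.Fg

/-!
# Invertible matrices over algebras with a degree function: the class
-/

set_option autoImplicit false

namespace Pool.Agent.Zk85.GL

open Matrix SimpleGraph
open Pool.Agent.Helper705_SA
open Pool.Agent.Y110.FJ (ClosedE)
open Pool.Agent.N509.TX (AcylF of_fg of_fg_mem C_stab)
open Pool.Agent.R941.FJ (C_equiv C_le mem_sup_normal)

section

variable {k R : Type} [Field k] [Ring R] [Algebra k R] [Nontrivial R] (D : Deg k R)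
variable {H : Type} [Group H] (ρ : H →* G2 R)

theorem core {g a b f : H} (ha : a ∈ Ah k ρ) (haB : a ∉ Bh D ρ) (hb : b ∈ Bh D ρ) (hbA : b ∉ Ah k ρ)
    (h0 : f • (Sum.inr (QuotientGroup.mk (g * a)) : Vx D ρ) = Sum.inr (QuotientGroup.mk (g * a)))
    (h1 : f • (Sum.inl (QuotientGroup.mk g) : Vx D ρ) = Sum.inl (QuotientGroup.mk g))
    (h2 : f • (Sum.inr (QuotientGroup.mk g) : Vx D ρ) = Sum.inr (QuotientGroup.mk g))
    (h3 : f • (Sum.inl (QuotientGroup.mk (g * b)) : Vx D ρ) = Sum.inl (QuotientGroup.mk (g * b))) :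
    Sc k (ρ f) := by
  rw [fix_inl] at h1 h3
  rw [fix_inr] at h0 h2
  have e0 : (g * a)⁻¹ * f * (g * a) = a⁻¹ * (g⁻¹ * f * g) * a := by group
  have e3 : (g * b)⁻¹ * f * (g * b) = b⁻¹ * (g⁻¹ * f * g) * b := by group
  rw [e0] at h0
  rw [e3] at h3
  have h0' : (ρ a)⁻¹ * ρ (g⁻¹ * f * g) * ρ a ∈ B D := by
    have := (mem_Bh D ρ).1 h0
    rwa [map_mul, map_mul, map_inv] at this
  have h3' : (ρ b)⁻¹ * ρ (g⁻¹ * f * g) * ρ b ∈ A k R := by
    have := (mem_Ah ρ).1 h3
    rwa [map_mul, map_mul, map_inv] at this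
  have h4 := rigid D ((mem_Ah ρ).1 h1) ((mem_Bh D ρ).1 h2) ((mem_Ah ρ).1 ha)
    (fun h => haB ((mem_Bh D ρ).2 h)) ((mem_Bh D ρ).1 hb) (fun h => hbA ((mem_Ah ρ).2 h)) h0' h3'
  have h5 : ρ f = ρ (g⁻¹ * f * g) := by
    have h6 : ρ f = ρ g * ρ (g⁻¹ * f * g) * (ρ g)⁻¹ := by
      rw [← map_inv, ← map_mul, ← map_mul]
      congr 1
      group
    rw [h6, ← h4.comm (g := ρ g), mul_inv_cancel_right]
  rw [h5]
  exact h4

theorem four {f : H} {x0 x1 x2 x3 : Vx D ρ} (h01 : (Tr D ρ).Adj x0 x1) (h12 : (Tr D ρ).Adj x1 x2)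
    (h23 : (Tr D ρ).Adj x2 x3) (n02 : x0 ≠ x2) (n13 : x1 ≠ x3) (f0 : f • x0 = x0) (f1 : f • x1 = x1)
    (f2 : f • x2 = x2) (f3 : f • x3 = x3) : Sc k (ρ f) := by
  obtain ⟨g, ⟨rfl, rfl⟩ | ⟨rfl, rfl⟩⟩ := h12
  · obtain ⟨a, ha, rfl⟩ := adj_inl D ρ h01.symm
    obtain ⟨b, hb, rfl⟩ := adj_inr D ρ h23
    refine core D ρ ha ?_ hb ?_ f0 f1 f2 f3
    · intro h
      apply n02
      congr 1
      rw [QuotientGroup.eq]
      have : (g * a)⁻¹ * g = a⁻¹ := by group
      rw [this]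
      exact inv_mem h
    · intro h
      apply n13
      congr 1
      rw [QuotientGroup.eq, inv_mul_cancel_left]
      exact h
  · obtain ⟨a, ha, rfl⟩ := adj_inl D ρ h23
    obtain ⟨b, hb, rfl⟩ := adj_inr D ρ h01.symm
    refine core D ρ ha ?_ hb ?_ f3 f2 f1 f0
    · intro h
      apply n13
      congr 1
      rw [QuotientGroup.eq, inv_mul_cancel_left]
      exact h
    · intro h
      apply n02
      congr 1
      rw [QuotientGroup.eq]
      have : (g * b)⁻¹ * g = b⁻¹ := by group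
      rw [this]
      exact inv_mem h

/-- elements which fix a path of length three are scalar -/
theorem path_sc {f : H} {u v : Vx D ρ} (p : (Tr D ρ).Walk u v) (hp : p.IsPath) (h3 : 3 ≤ p.length)
    (hf : ∀ x ∈ p.support, f • x = x) : Sc k (ρ f) := by
  have hne : ∀ i j, i ≤ p.length → j ≤ p.length → i ≠ j → p.getVert i ≠ p.getVert j := by
    intro i j hi hj hij h
    exact hij (hp.getVert_injOn hi hj h)
  refine four D ρ (x0 := p.getVert 0) (x1 := p.getVert 1) (x2 := p.getVert 2) (x3 := p.getVert 3)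
    (p.adj_getVert_succ (by omega)) (p.adj_getVert_succ (by omega)) (p.adj_getVert_succ (by omega))
    (hne _ _ (by omega) (by omega) (by omega)) (hne _ _ (by omega) (by omega) (by omega))
    (hf _ (p.getVert_mem_support _)) (hf _ (p.getVert_mem_support _))
    (hf _ (p.getVert_mem_support _)) (hf _ (p.getVert_mem_support _))

/-- the diagonal entries -/
def diag : B D →* R × R where
  toFun x := ((x : G2 R).1 0 0, (x : G2 R).1 1 1)
  map_one' := by
    show (((1 : G2 R) : Matrix (Fin 2) (Fin 2) R) 0 0, ((1 : G2 R) : Matrix (Fin 2) (Fin 2) R) 1 1) =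
      (1, 1)
    rw [Units.val_one, Matrix.one_apply_eq, Matrix.one_apply_eq]
  map_mul' x y := by
    have hx : ((x : G2 R) : Matrix (Fin 2) (Fin 2) R) 1 0 = 0 := x.2
    have hy : ((y : G2 R) : Matrix (Fin 2) (Fin 2) R) 1 0 = 0 := y.2
    show ((((x : G2 R) * (y : G2 R) : G2 R) : Matrix (Fin 2) (Fin 2) R) 0 0,
      (((x : G2 R) * (y : G2 R) : G2 R) : Matrix (Fin 2) (Fin 2) R) 1 1) = _
    rw [mul2, mul2, hx, hy, mul_zero, zero_mul, add_zero, zero_add]
    rfl

theorem diag_comm (x y : B D) : diag D x * diag D y = diag D y * diag D x := by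
  obtain ⟨⟨p, -, hp⟩, ⟨r, -, hr⟩⟩ := B_diag x.2
  have h1 : diag D x = (algebraMap k R p, algebraMap k R r) := Prod.ext hp.symm hr.symm
  rw [h1]
  exact Prod.ext (Algebra.commutes p _) (Algebra.commutes r _)

/-- the upper triangular matrices are metabelian -/
theorem B_metab : derivedSeries (B D) 2 = ⊥ := by
  refine Pool.Agent.N509.TK.metab (diag D).ker ?_ ?_
  · intro x hx y hy
    have hx0 : ((x : G2 R) : Matrix (Fin 2) (Fin 2) R) 0 0 = 1 := congrArg Prod.fst hx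
    have hx1 : ((x : G2 R) : Matrix (Fin 2) (Fin 2) R) 1 1 = 1 := congrArg Prod.snd hx
    have hy0 : ((y : G2 R) : Matrix (Fin 2) (Fin 2) R) 0 0 = 1 := congrArg Prod.fst hy
    have hy1 : ((y : G2 R) : Matrix (Fin 2) (Fin 2) R) 1 1 = 1 := congrArg Prod.snd hy
    have hx2 : ((x : G2 R) : Matrix (Fin 2) (Fin 2) R) 1 0 = 0 := x.2
    have hy2 : ((y : G2 R) : Matrix (Fin 2) (Fin 2) R) 1 0 = 0 := y.2
    apply Subtype.ext
    apply Units.ext
    ext i j
    show (((x : G2 R) * (y : G2 R) : G2 R) : Matrix (Fin 2) (Fin 2) R) i j =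
      (((y : G2 R) * (x : G2 R) : G2 R) : Matrix (Fin 2) (Fin 2) R) i j
    rw [mul2, mul2]
    fin_cases i <;> fin_cases j <;>
      simp [hx0, hx1, hx2, hy0, hy1, hy2, add_comm]
  · intro x y
    have h1 := diag_comm D x y
    show diag D (x * y * x⁻¹ * y⁻¹) = 1
    rw [map_mul, map_mul, map_mul, h1, mul_assoc (diag D y), ← map_mul, mul_inv_cancel, map_one,
      mul_one, ← map_mul, mul_inv_cancel, map_one]

end

end Pool.Agent.Zk85.GL
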