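import Pool.Agent.Zk85.CS.Cmp
import Pool.Agent.Helper705_SA.Amalg

/-!
# The universal property of amalgams from the tree
-/

set_option autoImplicit false

namespace Pool.Agent.Zk85.GL

open SimpleGraph
open Pool.Agent.Helper705_SA

/-- **homomorphisms on groups acting on a coset tree** -/
theorem ext_hom {H : Type} [Group H] (A B : Subgroup H) (hAB : A ⊔ B = ⊤)
    (hT : (cosetGraph A B).IsTree) {Z : Type} [Group Z] (α : A →* Z) (β : B →* Z)
    (hag : ∀ x (hA : x ∈ A) (hB : x ∈ B), α ⟨x, hA⟩ = β ⟨x, hB⟩) :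
    ∃ Φ : H →* Z, (∀ a : A, Φ a = α a) ∧ ∀ b : B, Φ b = β b := by
  classical
  obtain ⟨Q, hQ⟩ : ∃ Q : ((H ⧸ A) ⊕ (H ⧸ B)) → (H → Z) → Prop, Q = fun v F =>
      (∀ x, v = Sum.inl (QuotientGroup.mk x) → ∀ a : A, F (x * a) = F x * α a) ∧
        ∀ x, v = Sum.inr (QuotientGroup.mk x) → ∀ b : B, F (x * b) = F x * β b := ⟨_, rfl⟩
  obtain ⟨R, hR⟩ : ∃ R : ((H ⧸ A) ⊕ (H ⧸ B)) → ((H ⧸ A) ⊕ (H ⧸ B)) → (H → Z) → (H → Z) → Prop,
      R = fun u v F F' => ∀ x, ((u = Sum.inl (QuotientGroup.mk x) ∧ v = Sum.inr (QuotientGroup.mk x)) ∨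
        (v = Sum.inl (QuotientGroup.mk x) ∧ u = Sum.inr (QuotientGroup.mk x))) → F x = F' x :=
    ⟨_, rfl⟩
  obtain ⟨f, hf0, hfQ, hfR⟩ := Pool.Agent.Zk85.CS.exists_fun hT
    (Sum.inl (QuotientGroup.mk 1) : (H ⧸ A) ⊕ (H ⧸ B))
    (fun x => if h : x ∈ A then α ⟨x, h⟩ else 1) Q (by
      rw [hQ]
      constructor
      · intro x hx a
        have h1 : x ∈ A := by
          have := QuotientGroup.eq.1 (Sum.inl_injective hx)
          rwa [inv_one, one_mul] at this
        have h2 : x * a ∈ A := mul_mem h1 a.2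
        simp only [dif_pos h1, dif_pos h2]
        rw [← map_mul]
        rfl
      · intro x hx
        cases hx) R (by
      intro u v a b h
      rw [hR] at h ⊢
      exact fun x hx => (h x hx.symm).symm) (by
      intro u v F huv hF
      rw [hQ] at hF
      obtain ⟨g, ⟨rfl, rfl⟩ | ⟨rfl, rfl⟩⟩ := huv
      · refine ⟨fun x => if h : g⁻¹ * x ∈ B then F g * β ⟨g⁻¹ * x, h⟩ else 1, ?_, ?_⟩
        · rw [hQ]
          constructor
          · intro x hx
            cases hx
          · intro x hx b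
            have h1 : g⁻¹ * x ∈ B := QuotientGroup.eq.1 (Sum.inr_injective hx)
            have h2 : g⁻¹ * (x * b) ∈ B := by
              rw [← mul_assoc]
              exact mul_mem h1 b.2
            simp only [dif_pos h1, dif_pos h2]
            rw [mul_assoc, ← map_mul]
            congr 2
            exact Subtype.ext (mul_assoc _ _ _).symm
        · rw [hR]
          rintro x (⟨hx1, hx2⟩ | ⟨hx1, -⟩)
          · have h1 : g⁻¹ * x ∈ B := QuotientGroup.eq.1 (Sum.inr_injective hx2)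
            have h2 : g⁻¹ * x ∈ A := QuotientGroup.eq.1 (Sum.inl_injective hx1)
            simp only [dif_pos h1]
            have h3 := hF.1 g rfl ⟨_, h2⟩
            simp only [mul_inv_cancel_left] at h3
            rw [h3, hag _ h2 h1]
          · cases hx1
      · refine ⟨fun x => if h : g⁻¹ * x ∈ A then F g * α ⟨g⁻¹ * x, h⟩ else 1, ?_, ?_⟩
        · rw [hQ]
          constructor
          · intro x hx a
            have h1 : g⁻¹ * x ∈ A := QuotientGroup.eq.1 (Sum.inl_injective hx)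
            have h2 : g⁻¹ * (x * a) ∈ A := by
              rw [← mul_assoc]
              exact mul_mem h1 a.2
            simp only [dif_pos h1, dif_pos h2]
            rw [mul_assoc, ← map_mul]
            congr 2
            exact Subtype.ext (mul_assoc _ _ _).symm
          · intro x hx
            cases hx
        · rw [hR]
          rintro x (⟨hx1, -⟩ | ⟨hx1, hx2⟩)
          · cases hx1
          · have h1 : g⁻¹ * x ∈ A := QuotientGroup.eq.1 (Sum.inl_injective hx1)
            have h2 : g⁻¹ * x ∈ B := QuotientGroup.eq.1 (Sum.inr_injective hx2)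
            simp only [dif_pos h1]
            have h3 := hF.2 g rfl ⟨_, h2⟩
            simp only [mul_inv_cancel_left] at h3
            rw [h3, hag _ h1 h2])
  rw [hQ] at hfQ
  rw [hR] at hfR
  obtain ⟨Φ, hΦ⟩ : ∃ Φ : H → Z, Φ = fun g => f (Sum.inl (QuotientGroup.mk g)) g := ⟨_, rfl⟩
  have hadj : ∀ g : H, (cosetGraph A B).Adj (Sum.inl (QuotientGroup.mk g))
      (Sum.inr (QuotientGroup.mk g)) := fun g => ⟨g, Or.inl ⟨rfl, rfl⟩⟩
  have hΦA : ∀ g (a : A), Φ (g * a) = Φ g * α a := by
    intro g a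
    rw [hΦ]
    have h1 : (QuotientGroup.mk (g * a) : H ⧸ A) = QuotientGroup.mk g := by
      rw [eq_comm, QuotientGroup.eq, inv_mul_cancel_left]
      exact a.2
    show f (Sum.inl (QuotientGroup.mk (g * a))) (g * a) = _
    rw [h1]
    exact (hfQ _).1 g rfl a
  have hΦB : ∀ g (b : B), Φ (g * b) = Φ g * β b := by
    intro g b
    rw [hΦ]
    have h1 : (QuotientGroup.mk (g * b) : H ⧸ B) = QuotientGroup.mk g := by
      rw [eq_comm, QuotientGroup.eq, inv_mul_cancel_left]
      exact b.2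
    show f (Sum.inl (QuotientGroup.mk (g * b))) (g * b) = f (Sum.inl (QuotientGroup.mk g)) g * β b
    rw [hfR _ _ (hadj (g * b)) _ (Or.inl ⟨rfl, rfl⟩), h1, (hfQ _).2 g rfl b,
      hfR _ _ (hadj g) g (Or.inl ⟨rfl, rfl⟩)]
  have hΦ1 : Φ 1 = 1 := by
    rw [hΦ]
    show f (Sum.inl (QuotientGroup.mk 1)) 1 = 1
    rw [hf0]
    show (if h : (1 : H) ∈ A then α ⟨1, h⟩ else 1) = 1
    rw [dif_pos (one_mem A)]
    exact map_one α
  have hmul : ∀ y : H, ∀ x, Φ (x * y) = Φ x * Φ y := by
    intro y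
    have hy : y ∈ Subgroup.closure ((A : Set H) ∪ B) := by
      rw [Subgroup.closure_union, Subgroup.closure_eq, Subgroup.closure_eq, hAB]
      exact Subgroup.mem_top y
    induction hy using Subgroup.closure_induction with
    | mem y hy =>
      intro x
      rcases hy with hy | hy
      · have h1 := hΦA x ⟨y, hy⟩
        have h2 := hΦA 1 ⟨y, hy⟩
        simp only [one_mul] at h2
        rw [hΦ1, one_mul] at h2
        rw [h1, h2]
      · have h1 := hΦB x ⟨y, hy⟩
        have h2 := hΦB 1 ⟨y, hy⟩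
        simp only [one_mul] at h2
        rw [hΦ1, one_mul] at h2
        rw [h1, h2]
    | one =>
      intro x
      rw [mul_one, hΦ1, mul_one]
    | mul y z _ _ hy hz =>
      intro x
      rw [← mul_assoc, hz, hy, hz, mul_assoc]
    | inv y _ hy =>
      intro x
      have h1 := hy (x * y⁻¹)
      have h2 := hy y⁻¹
      rw [inv_mul_cancel_right] at h1
      rw [inv_mul_cancel, hΦ1] at h2
      have h3 : Φ y⁻¹ = (Φ y)⁻¹ := eq_inv_of_mul_eq_one_left h2.symm
      rw [h3, h1, mul_inv_cancel_right]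
  refine ⟨⟨⟨Φ, hΦ1⟩, fun x y => hmul y x⟩, fun a => ?_, fun b => ?_⟩
  · show Φ (a : H) = α a
    have := hΦA 1 a
    rwa [one_mul, hΦ1, one_mul] at this
  · show Φ (b : H) = β b
    have := hΦB 1 b
    rwa [one_mul, hΦ1, one_mul] at this

end Pool.Agent.Zk85.GL
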