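import Pool.Agent.Zk85.GL.Acl

/-!
# Invertible matrices over algebras with a degree function: the class
-/

set_option autoImplicit false

namespace Pool.Agent.Zk85.GL

open Matrix SimpleGraph
open Pool.Agent.Helper705_SA
open Pool.Agent.Y110.FJ (ClosedE)
open Pool.Agent.N509.TX (AcylF of_fg of_fg_mem C_stab)
open Pool.Agent.R941.FJ (C_equiv C_le mem_sup_normal)

variable {C : ∀ (G : Type) [Group G], Prop}

/-- the conjugate of a subgroup -/
def cj {H : Type} [Group H] (x : H) (K : Subgroup H) : Subgroup H :=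
  K.comap (MulAut.conj x⁻¹).toMonoidHom

theorem mem_cj {H : Type} [Group H] {x y : H} {K : Subgroup H} :
    y ∈ cj x K ↔ x⁻¹ * y * x ∈ K := by
  unfold cj
  rw [Subgroup.mem_comap]
  show x⁻¹ * y * x⁻¹⁻¹ ∈ K ↔ _
  rw [inv_inv]

section

variable {k R : Type} [Field k] [Ring R] [Algebra k R] [Nontrivial R] (D : Deg k R)
variable {H : Type} [Group H] {ρ : H →* G2 R}

theorem adj_smul (g : H) (u v : Vx D ρ) (h : (Tr D ρ).Adj u v) : (Tr D ρ).Adj (g • u) (g • v) := by
  obtain ⟨g', ⟨rfl, rfl⟩ | ⟨rfl, rfl⟩⟩ := h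
  · exact ⟨g * g', Or.inl ⟨rfl, rfl⟩⟩
  · exact ⟨g * g', Or.inr ⟨rfl, rfl⟩⟩

theorem no_inv (g : H) (u v : Vx D ρ) (h : (Tr D ρ).Adj u v) : ¬ (g • u = v ∧ g • v = u) := by
  rintro ⟨h1, -⟩
  obtain ⟨g', ⟨rfl, rfl⟩ | ⟨rfl, rfl⟩⟩ := h
  · cases h1
  · cases h1

/-- scalars with square one -/
theorem card_sc (hρ : Function.Injective ρ) (F : Finset H)
    (hF : ∀ z ∈ F, Sc k (ρ z) ∧ z * z = 1) : F.card ≤ 2 := by
  classical
  have hinj : Function.Injective (algebraMap k R) := (algebraMap k R).injective
  have h1 : ∀ z : H, z ∈ F → ∃ c : k, (c = 1 ∨ c = -1) ∧ ∀ i j,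
      (ρ z : Matrix (Fin 2) (Fin 2) R) i j = if i = j then algebraMap k R c else 0 := by
    intro z hz
    obtain ⟨⟨c, hc⟩, hzz⟩ := hF z hz
    refine ⟨c, ?_, hc⟩
    have h2 : ρ z * ρ z = 1 := by rw [← map_mul, hzz, map_one]
    have h3 := congrArg (fun g : G2 R => (g : Matrix (Fin 2) (Fin 2) R) 0 0) h2
    simp only [mul2, hc, Units.val_one, Matrix.one_apply_eq, if_true] at h3
    rw [if_neg (by decide), zero_mul, add_zero, ← map_mul, ← map_one (algebraMap k R)] at h3
    exact mul_self_eq_one_iff.1 (hinj h3)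
  choose! f hf hf' using h1
  have h2 : F.card ≤ ({1, -1} : Finset k).card := by
    refine Finset.card_le_card_of_injOn f ?_ ?_
    · intro z hz
      rcases hf z hz with h | h
      · rw [h]; simp
      · rw [h]; simp
    · intro a ha b hb hab
      apply hρ
      apply Units.ext
      ext i j
      rw [hf' a ha, hf' b hb, hab]
  exact h2.trans Finset.card_le_two

/-- **groups with few scalars** -/
theorem few (hC : ClosedE C) (hM : ∀ (G : Type) [Group G], derivedSeries G 2 = ⊥ → C G)
    (hA : AcylF C) (hρ : Function.Injective ρ) (hT : Ah k ρ ⊔ Bh D ρ = ⊤) (K : Subgroup H)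
    (hK : ∀ z ∈ K, Sc k (ρ z) → z * z = 1) (h : ∀ x : H, C ↥(K ⊓ cj x (Ah k ρ))) : C K := by
  classical
  refine of_fg hC fun L hL => ?_
  refine hA L (Vx D ρ) (Tr D ρ) hL (tree D ρ hT) (fun g u v huv => adj_smul D ((g : K) : H) u v huv)
    (fun g u v huv => no_inv D ((g : K) : H) u v huv) ⟨3, 2, ?_⟩ ?_
  · intro u v p hp h3 F hF
    have h1 := card_sc (k := k) hρ (F.map ⟨fun z : L => ((z : K) : H), fun a b hab =>
      Subtype.ext (Subtype.ext hab)⟩) (by
        intro z hz
        rw [Finset.mem_map] at hz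
        obtain ⟨z, hz, rfl⟩ := hz
        have h2 : Sc k (ρ ((z : K) : H)) := path_sc D ρ p hp h3 fun x hx => hF z hz x hx
        exact ⟨h2, hK _ (z : K).2 h2⟩)
    rwa [Finset.card_map] at h1
  · rintro (v | v)
    · obtain ⟨g, rfl⟩ := QuotientGroup.mk_surjective v
      refine hC.base.of_injective _ _ (((K.subtype.comp L.subtype).comp
        (Subgroup.subtype _)).codRestrict (K ⊓ cj g (Ah k ρ)) ?_) ?_ (h g)
      · rintro ⟨x, hx⟩
        refine ⟨(x : K).2, mem_cj.2 ?_⟩
        have h1 : ((x : K) : H) • (Sum.inl (QuotientGroup.mk g) : Vx D ρ) =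
          Sum.inl (QuotientGroup.mk g) := hx
        exact (fix_inl D ρ).1 h1
      · intro x y hxy
        have h1 := congrArg Subtype.val hxy
        exact Subtype.ext (Subtype.ext (Subtype.ext h1))
    · obtain ⟨g, rfl⟩ := QuotientGroup.mk_surjective v
      have hB : C (B D) := hM _ (B_metab D)
      let c : L →* G2 R := (ρ.comp (MulAut.conj g⁻¹).toMonoidHom).comp (K.subtype.comp L.subtype)
      have hc : ∀ x : L, c x = ρ (g⁻¹ * ((x : K) : H) * g) := by
        intro x
        show ρ (g⁻¹ * ((x : K) : H) * g⁻¹⁻¹) = _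
        rw [inv_inv]
      refine hC.base.of_injective _ _ ((c.comp (Subgroup.subtype _)).codRestrict (B D) ?_) ?_ hB
      · rintro ⟨x, hx⟩
        have h1 : ((x : K) : H) • (Sum.inr (QuotientGroup.mk g) : Vx D ρ) =
          Sum.inr (QuotientGroup.mk g) := hx
        show c x ∈ B D
        rw [hc]
        exact (fix_inr D ρ).1 h1
      · intro x y hxy
        have h1 : c x.1 = c y.1 := congrArg Subtype.val hxy
        rw [hc, hc] at h1
        have h2 := mul_left_cancel (mul_right_cancel (hρ h1))
        exact Subtype.ext (Subtype.ext (Subtype.ext h2))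

/-- products with a central infinite cyclic group -/
theorem central_prod (hC : ClosedE C) {N : Subgroup H} (hN : C N) {z : H}
    (hz : ∀ x ∈ N, z * x = x * z) (hinf : ∀ m : ℤ, z ^ m ∈ N → m = 0) :
    C ↥(N ⊔ Subgroup.zpowers z) := by
  let f : N →* H := N.subtype
  let g : Multiplicative ℤ →* H := zpowersHom H z
  have hg : ∀ m : ℤ, g (Multiplicative.ofAdd m) = z ^ m := fun m => rfl
  have hcomm : ∀ (m : N) (n : Multiplicative ℤ), Commute (f m) (g n) := by
    intro m n
    have h1 : Commute z (m : H) := hz m m.2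
    exact (h1.zpow_left (Multiplicative.toAdd n)).symm
  have hinj : Function.Injective (MonoidHom.noncommCoprod f g hcomm) := by
    rw [MonoidHom.noncommCoprod_injective]
    refine ⟨N.subtype_injective, ?_, ?_⟩
    · refine (injective_iff_map_eq_one g).2 fun n hn => ?_
      have h1 : z ^ (Multiplicative.toAdd n) = 1 := hn
      have h2 := hinf _ (h1 ▸ one_mem N)
      exact Multiplicative.toAdd.injective h2
    · rw [disjoint_iff_inf_le]
      rintro _ ⟨⟨x, rfl⟩, n, hn⟩
      have h1 : z ^ (Multiplicative.toAdd n) = (x : H) := hn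
      have h2 := hinf _ (h1 ▸ x.2)
      rw [h2, zpow_zero] at h1
      rw [Subgroup.mem_bot]
      exact h1.symm
  have hrange : (MonoidHom.noncommCoprod f g hcomm).range = N ⊔ Subgroup.zpowers z := by
    rw [MonoidHom.noncommCoprod_range]
    congr 1
    exact N.range_subtype
  rw [← hrange]
  exact C_equiv hC.base (MonoidHom.ofInjective hinj).symm (hC.base.prod _ _ hN hC.base.int)

/-- the image under a homomorphism to a commutative group is cyclic -/
theorem cyc_image (hC : ClosedE C) (hM : ∀ (G : Type) [Group G], derivedSeries G 2 = ⊥ → C G)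
    (hA : AcylF C) (hρ : Function.Injective ρ) (hT : Ah k ρ ⊔ Bh D ρ = ⊤) {Z : Type} [CommGroup Z]
    (δ : H →* Z) (hδ : ∀ z, Sc k (ρ z) → δ z = 1 → z * z = 1) (L : Subgroup H) (g : H)
    (hL : ∀ x ∈ L, δ x ∈ Subgroup.zpowers (δ g)) (h : ∀ x : H, C ↥(L ⊓ cj x (Ah k ρ))) :
    C L := by
  have hNC : C ↥(L ⊓ δ.ker) := few D hC hM hA hρ hT _ (fun z hz hs => hδ z hs hz.2) fun x =>
    C_le hC.base (inf_le_inf_right _ inf_le_left) (h x)
  by_cases hs : ∃ z ∈ L, Sc k (ρ z) ∧ δ z ≠ 1
  · obtain ⟨z, hzL, hzs, hz1⟩ := hs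
    obtain ⟨j, hj⟩ := hL z hzL
    have hj : δ g ^ j = δ z := hj
    have hj0 : j ≠ 0 := by
      rintro rfl
      rw [zpow_zero] at hj
      exact hz1 hj.symm
    have hrel : (Subgroup.zpowers (δ z)).relIndex (L.map δ) ≠ 0 := by
      have h1 : (Subgroup.zpowers (δ z)).relIndex (Subgroup.zpowers (δ g)) ≠ 0 := by
        rw [← hj]
        have hcov : Function.Surjective (fun i : Fin j.natAbs =>
            (QuotientGroup.mk (⟨δ g ^ (i : ℕ), ⟨(i : ℤ), by simp⟩⟩ : Subgroup.zpowers (δ g)) :
              Subgroup.zpowers (δ g) ⧸ (Subgroup.zpowers (δ g ^ j)).subgroupOf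
                (Subgroup.zpowers (δ g)))) := by
          intro q
          obtain ⟨⟨y, ⟨m, hm⟩⟩, rfl⟩ := QuotientGroup.mk_surjective q
          have hm : δ g ^ m = y := hm
          have h1 : 0 ≤ m % j := Int.emod_nonneg _ hj0
          have h2 : (m % j).toNat < j.natAbs := by
            have := Int.emod_lt_abs m hj0
            rw [Int.abs_eq_natAbs] at this
            omega
          refine ⟨⟨(m % j).toNat, h2⟩, ?_⟩
          rw [QuotientGroup.eq, Subgroup.mem_subgroupOf]
          show (δ g ^ (m % j).toNat)⁻¹ * y ∈ Subgroup.zpowers (δ g ^ j)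
          rw [← hm, ← zpow_natCast, Int.toNat_of_nonneg h1, ← _root_.zpow_neg,
            ← _root_.zpow_add]
          refine ⟨m / j, ?_⟩
          show (δ g ^ j) ^ (m / j) = _
          rw [← _root_.zpow_mul]
          congr 1
          have := Int.emod_add_mul_ediv m j
          omega
        have hfin : Finite (Subgroup.zpowers (δ g) ⧸ (Subgroup.zpowers (δ g ^ j)).subgroupOf
            (Subgroup.zpowers (δ g))) := Finite.of_surjective _ hcov
        exact (Subgroup.finiteIndex_iff_finite_quotient.2 hfin).index_ne_zero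
      intro h2
      apply h1
      refine Subgroup.relIndex_eq_zero_of_le_right ?_ h2
      rintro _ ⟨x, hx, rfl⟩
      exact hL x hx
    rw [← Subgroup.relIndex_comap] at hrel
    have hrel' : (L ⊓ (Subgroup.zpowers (δ z)).comap δ).relIndex L ≠ 0 := by
      rw [inf_comm, Subgroup.inf_relIndex_right]
      exact hrel
    refine Pool.Agent.Y529.FJ.up hC.base inf_le_left hrel' ?_
    by_cases hfz : ∃ m : ℤ, m ≠ 0 ∧ δ z ^ m = 1
    · -- the image is finite
      obtain ⟨m, hm, hzm⟩ := hfz
      refine Pool.Agent.Y529.FJ.up hC.base (H := L ⊓ δ.ker) ?_ ?_ hNC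
      · refine inf_le_inf_left _ ?_
        intro x hx
        have hx : δ x = 1 := hx
        rw [Subgroup.mem_comap, hx]
        exact one_mem _
      · have hfin : Finite (Subgroup.zpowers (δ z)) :=
          (finite_zpowers.2 (isOfFinOrder_iff_zpow_eq_one.2 ⟨m, hm, hzm⟩)).to_subtype
        have h1 : (⊥ : Subgroup Z).relIndex (Subgroup.zpowers (δ z)) ≠ 0 := by
          rw [Subgroup.relIndex_bot_left]
          exact Nat.card_pos.ne'
        have h2 := Subgroup.relIndex_comap_ne_zero δ h1
        rw [MonoidHom.comap_bot] at h2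
        have h3 : (L ⊓ δ.ker).relIndex (L ⊓ (Subgroup.zpowers (δ z)).comap δ) =
            δ.ker.relIndex (L ⊓ (Subgroup.zpowers (δ z)).comap δ) := by
          rw [← Subgroup.inf_relIndex_right, ← Subgroup.inf_relIndex_right (δ.ker)]
          congr 1
          apply le_antisymm
          · exact le_inf (inf_le_left.trans inf_le_right) inf_le_right
          · exact le_inf (le_inf (inf_le_right.trans inf_le_left) inf_le_left) inf_le_right
        rw [h3]
        intro h4
        exact h2 (Subgroup.relIndex_eq_zero_of_le_right inf_le_right h4)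
    · push Not at hfz
      have heq : L ⊓ (Subgroup.zpowers (δ z)).comap δ = (L ⊓ δ.ker) ⊔ Subgroup.zpowers z := by
        apply le_antisymm
        · rintro x ⟨hxL, ⟨m, hm⟩⟩
          have hm : δ z ^ m = δ x := hm
          have h1 : x * (z ^ m)⁻¹ ∈ L ⊓ δ.ker := by
            have hxL' : x ∈ L := hxL
            refine ⟨L.mul_mem hxL' (L.inv_mem (L.zpow_mem hzL m)), ?_⟩
            show δ (x * (z ^ m)⁻¹) = 1
            rw [map_mul, map_inv, map_zpow, hm, mul_inv_cancel]
          have h2 : x = x * (z ^ m)⁻¹ * z ^ m := by group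
          rw [h2]
          exact mul_mem (Subgroup.mem_sup_left h1) (Subgroup.mem_sup_right ⟨m, rfl⟩)
        · refine sup_le (le_inf inf_le_left ?_) ?_
          · intro x hx
            have hx : δ x = 1 := hx.2
            rw [Subgroup.mem_comap, hx]
            exact one_mem _
          · rw [Subgroup.zpowers_le]
            exact ⟨hzL, Subgroup.mem_zpowers _⟩
      rw [heq]
      refine central_prod hC hNC ?_ ?_
      · intro x _
        apply hρ
        rw [map_mul, map_mul]
        exact hzs.comm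
      · rintro m ⟨-, hm⟩
        by_contra hm0
        apply hfz m hm0
        rw [← map_zpow]
        exact hm
  · refine few D hC hM hA hρ hT L (fun z hz hzs => hδ z hzs ?_) h
    by_contra hz1
    exact hs ⟨z, hz, hzs, hz1⟩

/-- **the general case** -/
theorem main (hC : ClosedE C) (hM : ∀ (G : Type) [Group G], derivedSeries G 2 = ⊥ → C G)
    (hA : AcylF C) (hρ : Function.Injective ρ) (hT : Ah k ρ ⊔ Bh D ρ = ⊤) {Z : Type} [CommGroup Z]
    (δ : H →* Z) (hδ : ∀ z, Sc k (ρ z) → δ z = 1 → z * z = 1) (K : Subgroup H)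
    (h : ∀ x : H, C ↥(K ⊓ cj x (Ah k ρ))) : C K := by
  obtain ⟨N, hN⟩ : ∃ N : Subgroup K, N = (δ.comp K.subtype).ker := ⟨_, rfl⟩
  have hNn : N.Normal := by
    rw [hN]
    exact MonoidHom.normal_ker _
  refine Pool.Agent.Y529.FJ.t_ext C hC K N ?_ ?_ ?_
  · have h1 : C ↥(N.map K.subtype) := by
      refine few D hC hM hA hρ hT _ ?_ ?_
      · rintro _ ⟨x, hx, rfl⟩ hs
        rw [hN] at hx
        exact hδ _ hs hx
      · intro x
        refine C_le hC.base (inf_le_inf_right _ ?_) (h x)
        rintro _ ⟨y, -, rfl⟩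
        exact y.2
    exact C_equiv hC.base (N.equivMapOfInjective K.subtype K.subtype_injective) h1
  · subst hN
    refine hC.base.of_injective _ _ (QuotientGroup.kerLift (δ.comp K.subtype))
      (QuotientGroup.kerLift_injective _) ?_
    refine hM Z ?_
    rw [derivedSeries_succ, derivedSeries_one, eq_bot_iff, Subgroup.commutator_le]
    intro x _ y _
    rw [Subgroup.mem_bot, commutatorElement_eq_one_iff_mul_comm, mul_comm]
  · intro g _
    have h1 : C ↥((N ⊔ Subgroup.zpowers g).map K.subtype) := by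
      refine cyc_image D hC hM hA hρ hT δ hδ _ (g : H) ?_ ?_
      · have h2 : (N ⊔ Subgroup.zpowers g).map K.subtype ≤
            (Subgroup.zpowers (δ (g : H))).comap δ := by
          rw [Subgroup.map_sup]
          refine sup_le ?_ ?_
          · rintro _ ⟨x, hx, rfl⟩
            rw [hN] at hx
            have hx : δ (x : H) = 1 := hx
            show δ (x : H) ∈ Subgroup.zpowers (δ (g : H))
            rw [hx]
            exact one_mem _
          · rw [MonoidHom.map_zpowers, Subgroup.zpowers_le]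
            exact Subgroup.mem_zpowers _
        exact fun x hx => h2 hx
      · intro x
        refine C_le hC.base (inf_le_inf_right _ ?_) (h x)
        rintro _ ⟨y, -, rfl⟩
        exact y.2
    exact C_equiv hC.base ((N ⊔ Subgroup.zpowers g).equivMapOfInjective K.subtype
      K.subtype_injective) h1

end

end Pool.Agent.Zk85.GL
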