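import Mathlib
import Pool.Agent.Helper705_SA.Amalg
import Pool.Agent.Zk9.PP.Acy

/-!
# Invertible matrices over algebras with a degree function: the tree
-/

set_option autoImplicit false

namespace Pool.Agent.Zk85.GL

open Matrix SimpleGraph
open Pool.Agent.Helper705_SA

/-- the invertible matrices of size two -/
abbrev G2 (R : Type) [Ring R] : Type := (Matrix (Fin 2) (Fin 2) R)ˣ

/-- degree functions on an algebra -/
structure Deg (k R : Type) [Field k] [Ring R] [Algebra k R] where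
  n : R → ℕ
  add : ∀ x y : R, n (x + y) ≤ max (n x) (n y)
  nz : ∀ x y : R, x ≠ 0 → y ≠ 0 → x * y ≠ 0
  mul : ∀ x y : R, x ≠ 0 → y ≠ 0 → n (x * y) = n x + n y
  zero : ∀ x : R, n x = 0 ↔ ∃ c : k, algebraMap k R c = x

variable {k R : Type} [Field k] [Ring R] [Algebra k R]

/-- the matrices over the field -/
def A (k R : Type) [Field k] [Ring R] [Algebra k R] : Subgroup (G2 R) :=
  (Units.map ((algebraMap k R).mapMatrix (m := Fin 2)).toMonoidHom).range

theorem mem_A {g : G2 R} : g ∈ A k R ↔ ∃ a : G2 k, ∀ i j, (g : Matrix (Fin 2) (Fin 2) R) i j =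
    algebraMap k R ((a : Matrix (Fin 2) (Fin 2) k) i j) := by
  constructor
  · rintro ⟨a, rfl⟩
    exact ⟨a, fun i j => rfl⟩
  · rintro ⟨a, h⟩
    refine ⟨a, Units.ext ?_⟩
    ext i j
    exact (h i j).symm

theorem mul2 (g h : G2 R) (i j : Fin 2) : ((g * h : G2 R) : Matrix (Fin 2) (Fin 2) R) i j =
    (g : Matrix (Fin 2) (Fin 2) R) i 0 * (h : Matrix (Fin 2) (Fin 2) R) 0 j +
      (g : Matrix (Fin 2) (Fin 2) R) i 1 * (h : Matrix (Fin 2) (Fin 2) R) 1 j := by
  rw [Units.val_mul, Matrix.mul_apply, Fin.sum_univ_two]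

theorem mul_inv2 (g : G2 R) (i j : Fin 2) :
    (g : Matrix (Fin 2) (Fin 2) R) i 0 * ((g⁻¹ : G2 R) : Matrix (Fin 2) (Fin 2) R) 0 j +
      (g : Matrix (Fin 2) (Fin 2) R) i 1 * ((g⁻¹ : G2 R) : Matrix (Fin 2) (Fin 2) R) 1 j =
      if i = j then 1 else 0 := by
  rw [← mul2, mul_inv_cancel, Units.val_one, Matrix.one_apply]

namespace Deg

variable (D : Deg k R)

theorem n_alg (c : k) : D.n (algebraMap k R c) = 0 := (D.zero _).2 ⟨c, rfl⟩

theorem n_zero : D.n 0 = 0 := (D.zero _).2 ⟨0, map_zero _⟩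

theorem n_one : D.n 1 = 0 := (D.zero _).2 ⟨1, map_one _⟩

theorem n_mul_le (x y : R) : D.n (x * y) ≤ D.n x + D.n y := by
  by_cases hx : x = 0
  · rw [hx, zero_mul, D.n_zero]
    exact Nat.zero_le _
  by_cases hy : y = 0
  · rw [hy, mul_zero, D.n_zero]
    exact Nat.zero_le _
  exact (D.mul x y hx hy).le

theorem n_mul_alg (x : R) (c : k) : D.n (x * algebraMap k R c) ≤ D.n x := by
  have := D.n_mul_le x (algebraMap k R c)
  rwa [D.n_alg, add_zero] at this

theorem n_neg (x : R) : D.n (-x) ≤ D.n x := by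
  have := D.n_mul_alg x (-1)
  rwa [map_neg, map_one, mul_neg, mul_one] at this

theorem n_sub (x y : R) : D.n (x - y) ≤ max (D.n x) (D.n y) := by
  rw [sub_eq_add_neg]
  exact (D.add _ _).trans (max_le_max le_rfl (D.n_neg y))

/-- linear combinations -/
theorem n_lin (x y : R) (a b : k) :
    D.n (x * algebraMap k R a + y * algebraMap k R b) ≤ max (D.n x) (D.n y) :=
  (D.add _ _).trans (max_le_max (D.n_mul_alg _ _) (D.n_mul_alg _ _))

/-- units -/
theorem unit (D : Deg k R) [Nontrivial R] {x y : R} (h : x * y = 1) :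
    ∃ c : k, c ≠ 0 ∧ algebraMap k R c = x := by
  have hx : x ≠ 0 := by
    rintro rfl
    rw [zero_mul] at h
    exact zero_ne_one h
  have hy : y ≠ 0 := by
    rintro rfl
    rw [mul_zero] at h
    exact zero_ne_one h
  have h1 := D.mul x y hx hy
  rw [h, D.n_one] at h1
  obtain ⟨c, hc⟩ := (D.zero x).1 (by omega)
  refine ⟨c, ?_, hc⟩
  rintro rfl
  rw [map_zero] at hc
  exact hx hc.symm

end Deg

/-- the upper triangular matrices -/
def B (D : Deg k R) : Subgroup (G2 R) where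
  carrier := {g | (g : Matrix (Fin 2) (Fin 2) R) 1 0 = 0}
  one_mem' := by
    show ((1 : G2 R) : Matrix (Fin 2) (Fin 2) R) 1 0 = 0
    rw [Units.val_one]
    simp
  mul_mem' := by
    intro g h hg hh
    have hg : (g : Matrix (Fin 2) (Fin 2) R) 1 0 = 0 := hg
    have hh : (h : Matrix (Fin 2) (Fin 2) R) 1 0 = 0 := hh
    show ((g * h : G2 R) : Matrix (Fin 2) (Fin 2) R) 1 0 = 0
    rw [mul2, hg, hh, zero_mul, mul_zero, add_zero]
  inv_mem' := by
    intro g hg
    have hg : (g : Matrix (Fin 2) (Fin 2) R) 1 0 = 0 := hg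
    show ((g⁻¹ : G2 R) : Matrix (Fin 2) (Fin 2) R) 1 0 = 0
    by_contra h1
    have h2 := mul_inv2 g 1 0
    rw [hg, zero_mul, zero_add, if_neg (by decide)] at h2
    have h3 : (g : Matrix (Fin 2) (Fin 2) R) 1 1 = 0 := by
      by_contra h3
      have h1' : ((g⁻¹ : G2 R) : Matrix (Fin 2) (Fin 2) R) 1 0 ≠ 0 := h1
      have h5 := D.nz ((g : Matrix (Fin 2) (Fin 2) R) 1 1)
        (((g⁻¹ : G2 R) : Matrix (Fin 2) (Fin 2) R) 1 0) h3 h1'
      exact h5 h2
    have h4 := mul_inv2 g 1 1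
    rw [hg, h3, zero_mul, zero_mul, zero_add, if_pos rfl] at h4
    have h5 : ∀ x : R, x = 0 := fun x => by rw [← one_mul x, ← h4, zero_mul]
    exact h1 (h5 _)

theorem mem_B {D : Deg k R} {g : G2 R} : g ∈ B D ↔ (g : Matrix (Fin 2) (Fin 2) R) 1 0 = 0 := Iff.rfl

/-- the diagonal entries -/
theorem B_diag [Nontrivial R] {D : Deg k R} {g : G2 R} (hg : g ∈ B D) :
    (∃ p : k, p ≠ 0 ∧ algebraMap k R p = (g : Matrix (Fin 2) (Fin 2) R) 0 0) ∧
      ∃ r : k, r ≠ 0 ∧ algebraMap k R r = (g : Matrix (Fin 2) (Fin 2) R) 1 1 := by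
  have h1 := mem_B.1 hg
  have h2 := mem_B.1 (inv_mem hg)
  have h3 := mul_inv2 g 0 0
  have h4 := mul_inv2 g 1 1
  rw [h2, mul_zero, add_zero, if_pos rfl] at h3
  rw [h1, zero_mul, zero_add, if_pos rfl] at h4
  exact ⟨D.unit h3, D.unit h4⟩

section level

variable (D : Deg k R)

/-- the degree of the first column -/
def c0 (g : G2 R) : ℕ := max (D.n ((g : Matrix (Fin 2) (Fin 2) R) 0 0))
  (D.n ((g : Matrix (Fin 2) (Fin 2) R) 1 0))

/-- the degree of the second column -/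
def c1 (g : G2 R) : ℕ := max (D.n ((g : Matrix (Fin 2) (Fin 2) R) 0 1))
  (D.n ((g : Matrix (Fin 2) (Fin 2) R) 1 1))

/-- the degree of a matrix -/
def lv (g : G2 R) : ℕ := max (c0 D g) (c1 D g)

theorem n_le_c0 (g : G2 R) (i : Fin 2) : D.n ((g : Matrix (Fin 2) (Fin 2) R) i 0) ≤ c0 D g := by
  fin_cases i
  · exact le_max_left _ _
  · exact le_max_right _ _

theorem n_le_c1 (g : G2 R) (i : Fin 2) : D.n ((g : Matrix (Fin 2) (Fin 2) R) i 1) ≤ c1 D g := by
  fin_cases i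
  · exact le_max_left _ _
  · exact le_max_right _ _

theorem c0_le {g : G2 R} {m : ℕ} (h : ∀ i, D.n ((g : Matrix (Fin 2) (Fin 2) R) i 0) ≤ m) :
    c0 D g ≤ m := max_le (h 0) (h 1)

theorem c1_le {g : G2 R} {m : ℕ} (h : ∀ i, D.n ((g : Matrix (Fin 2) (Fin 2) R) i 1) ≤ m) :
    c1 D g ≤ m := max_le (h 0) (h 1)

theorem lv_mul_le {g a : G2 R} (ha : a ∈ A k R) : lv D (g * a) ≤ lv D g := by
  obtain ⟨b, hb⟩ := mem_A.1 ha
  refine max_le (c0_le D fun i => ?_) (c1_le D fun i => ?_)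
  · rw [mul2, hb, hb]
    exact (D.n_lin _ _ _ _).trans (max_le ((n_le_c0 D g i).trans (le_max_left _ _))
      ((n_le_c1 D g i).trans (le_max_right _ _)))
  · rw [mul2, hb, hb]
    exact (D.n_lin _ _ _ _).trans (max_le ((n_le_c0 D g i).trans (le_max_left _ _))
      ((n_le_c1 D g i).trans (le_max_right _ _)))

theorem lv_mul {g a : G2 R} (ha : a ∈ A k R) : lv D (g * a) = lv D g := by
  apply le_antisymm (lv_mul_le D ha)
  have := lv_mul_le D (g := g * a) (inv_mem ha)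
  rwa [mul_inv_cancel_right] at this

variable [Nontrivial R]

theorem c0_mul_le {g b : G2 R} (hb : b ∈ B D) : c0 D (g * b) ≤ c0 D g := by
  obtain ⟨⟨p, -, hp⟩, -⟩ := B_diag hb
  refine c0_le D fun i => ?_
  rw [mul2, mem_B.1 hb, mul_zero, add_zero, ← hp]
  exact (D.n_mul_alg _ _).trans (n_le_c0 D g i)

theorem c0_mul {g b : G2 R} (hb : b ∈ B D) : c0 D (g * b) = c0 D g := by
  apply le_antisymm (c0_mul_le D hb)
  have := c0_mul_le D (g := g * b) (inv_mem hb)
  rwa [mul_inv_cancel_right] at this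

/-- the first column has a nonzero entry of maximal degree -/
theorem exists_max (g : G2 R) : ∃ i, (g : Matrix (Fin 2) (Fin 2) R) i 0 ≠ 0 ∧
    D.n ((g : Matrix (Fin 2) (Fin 2) R) i 0) = c0 D g := by
  have hne : (g : Matrix (Fin 2) (Fin 2) R) 0 0 ≠ 0 ∨ (g : Matrix (Fin 2) (Fin 2) R) 1 0 ≠ 0 := by
    by_contra h
    push Not at h
    have h1 := mul_inv2 g⁻¹ 0 0
    rw [inv_inv, h.1, h.2, mul_zero, mul_zero, add_zero, if_pos rfl] at h1
    exact zero_ne_one h1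
  by_cases h0 : c0 D g = 0
  · rcases hne with h | h
    · exact ⟨0, h, by have := n_le_c0 D g 0; omega⟩
    · exact ⟨1, h, by have := n_le_c0 D g 1; omega⟩
  · have hz : ∀ i, D.n ((g : Matrix (Fin 2) (Fin 2) R) i 0) = c0 D g →
        (g : Matrix (Fin 2) (Fin 2) R) i 0 ≠ 0 := by
      intro i hi h
      rw [h, D.n_zero] at hi
      exact h0 hi.symm
    rcases max_choice (D.n ((g : Matrix (Fin 2) (Fin 2) R) 0 0))
      (D.n ((g : Matrix (Fin 2) (Fin 2) R) 1 0)) with h | h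
    · have h' : D.n ((g : Matrix (Fin 2) (Fin 2) R) 0 0) = c0 D g := h.symm
      exact ⟨0, hz 0 h', h'⟩
    · have h' : D.n ((g : Matrix (Fin 2) (Fin 2) R) 1 0) = c0 D g := h.symm
      exact ⟨1, hz 1 h', h'⟩

omit [Nontrivial R] in
/-- first key lemma -/
theorem key_A {g c : G2 R} (hc : c ∈ A k R) (hcB : c ∉ B D) (h1 : c0 D g < lv D g)
    (h2 : c0 D (g * c) < lv D g) : False := by
  obtain ⟨a, ha⟩ := mem_A.1 hc
  have hne : (a : Matrix (Fin 2) (Fin 2) k) 1 0 ≠ 0 := by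
    intro h
    apply hcB
    rw [mem_B, ha, h, map_zero]
  have h3 : c1 D g ≤ max (c0 D (g * c)) (c0 D g) := by
    refine c1_le D fun i => ?_
    have h4 : (g : Matrix (Fin 2) (Fin 2) R) i 1 =
        ((g * c : G2 R) : Matrix (Fin 2) (Fin 2) R) i 0 *
          algebraMap k R (((a : Matrix (Fin 2) (Fin 2) k) 1 0)⁻¹) +
        (g : Matrix (Fin 2) (Fin 2) R) i 0 * algebraMap k R
          (-((a : Matrix (Fin 2) (Fin 2) k) 0 0 * ((a : Matrix (Fin 2) (Fin 2) k) 1 0)⁻¹)) := by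
      rw [mul2, ha, ha, add_mul, mul_assoc, mul_assoc, ← map_mul, ← map_mul, mul_inv_cancel₀ hne,
        map_one, mul_one, map_neg, mul_neg]
      abel
    rw [h4]
    exact (D.n_lin _ _ _ _).trans (max_le_max (n_le_c0 D _ i) (n_le_c0 D _ i))
  have h4 : lv D g ≤ max (c0 D (g * c)) (c0 D g) := max_le (le_max_right _ _) h3
  omega

/-- second key lemma -/
theorem key_B {g c : G2 R} (hc : c ∈ B D) (h1 : lv D g ≤ c0 D g) (h2 : lv D (g * c) ≤ c0 D g) :
    c ∈ A k R := by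
  obtain ⟨⟨p, hp0, hp⟩, ⟨r, hr0, hr⟩⟩ := B_diag hc
  obtain ⟨i, hi0, hi⟩ := exists_max D g
  have h3 : D.n ((g : Matrix (Fin 2) (Fin 2) R) i 0 * (c : Matrix (Fin 2) (Fin 2) R) 0 1) ≤
      c0 D g := by
    have h4 : (g : Matrix (Fin 2) (Fin 2) R) i 0 * (c : Matrix (Fin 2) (Fin 2) R) 0 1 =
        ((g * c : G2 R) : Matrix (Fin 2) (Fin 2) R) i 1 -
          (g : Matrix (Fin 2) (Fin 2) R) i 1 * algebraMap k R r := by
      rw [mul2, hr, add_sub_cancel_right]
    rw [h4]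
    refine (D.n_sub _ _).trans (max_le ?_ ((D.n_mul_alg _ _).trans ?_))
    · exact ((n_le_c1 D _ i).trans (le_max_right _ _)).trans h2
    · exact ((n_le_c1 D _ i).trans (le_max_right _ _)).trans h1
  obtain ⟨q, hq⟩ : ∃ q : k, algebraMap k R q = (c : Matrix (Fin 2) (Fin 2) R) 0 1 := by
    by_cases h0 : (c : Matrix (Fin 2) (Fin 2) R) 0 1 = 0
    · exact ⟨0, by rw [h0, map_zero]⟩
    · refine (D.zero _).1 ?_
      rw [D.mul _ _ hi0 h0, hi] at h3
      omega
  have hdet : IsUnit (!![p, q; 0, r] : Matrix (Fin 2) (Fin 2) k) := by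
    rw [Matrix.isUnit_iff_isUnit_det, Matrix.det_fin_two_of, mul_zero, sub_zero]
    exact (mul_ne_zero hp0 hr0).isUnit
  refine mem_A.2 ⟨hdet.unit, fun i j => ?_⟩
  rw [IsUnit.unit_spec]
  fin_cases i <;> fin_cases j
  · exact hp.symm
  · exact hq.symm
  · show (c : Matrix (Fin 2) (Fin 2) R) 1 0 = algebraMap k R 0
    rw [map_zero]
    exact mem_B.1 hc
  · exact hr.symm

end level

end Pool.Agent.Zk85.GL
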