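import Pool.Agent.Zk85.GL.Amg
import Pool.Agent.Zk85.GL.Cls

/-!
# The group generated by the matrices over the field and the upper triangular matrices
-/

set_option autoImplicit false

namespace Pool.Agent.Zk85.GL

open Matrix SimpleGraph
open Pool.Agent.Helper705_SA
open Pool.Agent.Y110.FJ (ClosedE)
open Pool.Agent.N509.TX (AcylF)
open Pool.Agent.R941.FJ (C_equiv C_le)

variable {C : ∀ (G : Type) [Group G], Prop}
variable {k R : Type} [Field k] [Ring R] [Algebra k R] [Nontrivial R] (D : Deg k R)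
variable {H : Type} [Group H] {ρ : H →* G2 R}

/-- the determinant on the matrices over the field -/
theorem det_A : ∃ α : Ah k ρ →* kˣ, ∀ (x : Ah k ρ) (a : G2 k),
    (∀ i j, (ρ (x : H) : Matrix (Fin 2) (Fin 2) R) i j =
      algebraMap k R ((a : Matrix (Fin 2) (Fin 2) k) i j)) →
    ((α x : kˣ) : k) = Matrix.det (a : Matrix (Fin 2) (Fin 2) k) := by
  have hinj : Function.Injective (algebraMap k R) := (algebraMap k R).injective
  choose a ha using fun x : Ah k ρ => mem_A.1 ((mem_Ah ρ).1 x.2)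
  have huniq : ∀ (x : Ah k ρ) (b : G2 k), (∀ i j, (ρ (x : H) : Matrix (Fin 2) (Fin 2) R) i j =
      algebraMap k R ((b : Matrix (Fin 2) (Fin 2) k) i j)) → b = a x := by
    intro x b hb
    apply Units.ext
    ext i j
    apply hinj
    rw [← hb, ha]
  have h1 : a 1 = 1 := by
    refine (huniq 1 1 fun i j => ?_).symm
    show (ρ 1 : Matrix (Fin 2) (Fin 2) R) i j = _
    rw [map_one, Units.val_one, Units.val_one, Matrix.one_apply, Matrix.one_apply]
    split_ifs
    · rw [map_one]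
    · rw [map_zero]
  have hmul : ∀ x y, a (x * y) = a x * a y := by
    intro x y
    refine (huniq (x * y) _ fun i j => ?_).symm
    show (ρ ((x : H) * (y : H)) : Matrix (Fin 2) (Fin 2) R) i j = _
    rw [map_mul, mul2, mul2, ha, ha, ha, ha, map_add, map_mul, map_mul]
  refine ⟨(Units.map Matrix.detMonoidHom).comp ⟨⟨a, h1⟩, hmul⟩, fun x b hb => ?_⟩
  rw [huniq x b hb]
  rfl

/-- the product of the diagonal entries of the upper triangular matrices -/
theorem det_B : ∃ β : Bh D ρ →* kˣ, ∀ (x : Bh D ρ) (p r : k),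
    algebraMap k R p = (ρ (x : H) : Matrix (Fin 2) (Fin 2) R) 0 0 →
    algebraMap k R r = (ρ (x : H) : Matrix (Fin 2) (Fin 2) R) 1 1 →
    ((β x : kˣ) : k) = p * r := by
  have hinj : Function.Injective (algebraMap k R) := (algebraMap k R).injective
  have hex : ∀ x : Bh D ρ, ∃ u v : kˣ,
      algebraMap k R u = (ρ (x : H) : Matrix (Fin 2) (Fin 2) R) 0 0 ∧
      algebraMap k R v = (ρ (x : H) : Matrix (Fin 2) (Fin 2) R) 1 1 := by
    intro x
    obtain ⟨⟨p, hp0, hp⟩, ⟨r, hr0, hr⟩⟩ := B_diag ((mem_Bh D ρ).1 x.2)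
    exact ⟨Units.mk0 p hp0, Units.mk0 r hr0, hp, hr⟩
  choose u v hu hv using hex
  have h10 : ∀ x : Bh D ρ, (ρ (x : H) : Matrix (Fin 2) (Fin 2) R) 1 0 = 0 := fun x => x.2
  have hu1 : u 1 = 1 := by
    apply Units.ext
    apply hinj
    rw [hu]
    show (ρ 1 : Matrix (Fin 2) (Fin 2) R) 0 0 = _
    rw [map_one, Units.val_one, Units.val_one, Matrix.one_apply_eq, map_one]
  have hv1 : v 1 = 1 := by
    apply Units.ext
    apply hinj
    rw [hv]
    show (ρ 1 : Matrix (Fin 2) (Fin 2) R) 1 1 = _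
    rw [map_one, Units.val_one, Units.val_one, Matrix.one_apply_eq, map_one]
  have humul : ∀ x y, u (x * y) = u x * u y := by
    intro x y
    apply Units.ext
    apply hinj
    rw [hu]
    show (ρ ((x : H) * (y : H)) : Matrix (Fin 2) (Fin 2) R) 0 0 = _
    rw [map_mul, mul2, h10, mul_zero, add_zero, Units.val_mul, map_mul, hu, hu]
  have hvmul : ∀ x y, v (x * y) = v x * v y := by
    intro x y
    apply Units.ext
    apply hinj
    rw [hv]
    show (ρ ((x : H) * (y : H)) : Matrix (Fin 2) (Fin 2) R) 1 1 = _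
    rw [map_mul, mul2, h10, zero_mul, zero_add, Units.val_mul, map_mul, hv, hv]
  refine ⟨⟨⟨fun x => u x * v x, by rw [hu1, hv1, mul_one]⟩, fun x y => ?_⟩, fun x p r hp hr => ?_⟩
  · show u (x * y) * v (x * y) = u x * v x * (u y * v y)
    rw [humul, hvmul, mul_mul_mul_comm]
  · have e1 : (u x : k) = p := hinj ((hu x).trans hp.symm)
    have e2 : (v x : k) = r := hinj ((hv x).trans hr.symm)
    show ((u x * v x : kˣ) : k) = p * r
    rw [Units.val_mul, e1, e2]

/-- **the determinant** -/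
theorem exists_det (hT : Ah k ρ ⊔ Bh D ρ = ⊤) : ∃ δ : H →* kˣ,
    ∀ (z : H) (c : k), (∀ i j, (ρ z : Matrix (Fin 2) (Fin 2) R) i j =
      if i = j then algebraMap k R c else 0) → ((δ z : kˣ) : k) = c * c := by
  have hinj : Function.Injective (algebraMap k R) := (algebraMap k R).injective
  obtain ⟨α, hα⟩ := det_A (k := k) (ρ := ρ)
  obtain ⟨β, hβ⟩ := det_B D (ρ := ρ)
  obtain ⟨δ, hδ, -⟩ := ext_hom (Ah k ρ) (Bh D ρ) hT (tree D ρ hT) α β (by
    intro x hA hB
    obtain ⟨a, ha⟩ := mem_A.1 ((mem_Ah ρ).1 hA)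
    have h10 : (ρ x : Matrix (Fin 2) (Fin 2) R) 1 0 = 0 := hB
    have ha10 : (a : Matrix (Fin 2) (Fin 2) k) 1 0 = 0 := by
      apply hinj
      rw [← ha, h10, map_zero]
    apply Units.ext
    rw [hα ⟨x, hA⟩ a ha, hβ ⟨x, hB⟩ _ _ (ha 0 0).symm (ha 1 1).symm, Matrix.det_fin_two, ha10,
      mul_zero, sub_zero])
  refine ⟨δ, fun z c hz => ?_⟩
  have hc : c ≠ 0 := by
    rintro rfl
    have h1 := mul_inv2 (ρ z) 0 0
    rw [hz, hz, if_pos rfl, if_neg (by decide), map_zero, zero_mul, zero_mul, add_zero,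
      if_pos rfl] at h1
    exact zero_ne_one h1
  have hu : IsUnit (!![c, 0; 0, c] : Matrix (Fin 2) (Fin 2) k) := by
    rw [Matrix.isUnit_iff_isUnit_det, Matrix.det_fin_two_of, mul_zero, sub_zero]
    exact (mul_ne_zero hc hc).isUnit
  have hent : ∀ i j, (ρ z : Matrix (Fin 2) (Fin 2) R) i j =
      algebraMap k R ((hu.unit : Matrix (Fin 2) (Fin 2) k) i j) := by
    intro i j
    rw [hz, IsUnit.unit_spec]
    fin_cases i <;> fin_cases j <;> simp
  have hzA : z ∈ Ah k ρ := (mem_Ah ρ).2 (mem_A.2 ⟨hu.unit, hent⟩)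
  have h1 := hδ ⟨z, hzA⟩
  have h2 := hα ⟨z, hzA⟩ hu.unit hent
  show ((δ z : kˣ) : k) = c * c
  have h3 : δ z = α ⟨z, hzA⟩ := h1
  rw [h3, h2, IsUnit.unit_spec, Matrix.det_fin_two_of, mul_zero, sub_zero]

/-- **groups of matrices over algebras with a degree function** -/
theorem ge2 (hC : ClosedE C) (hM : ∀ (G : Type) [Group G], derivedSeries G 2 = ⊥ → C G)
    (hA : AcylF C) (Γ : Subgroup (G2 R)) (hΓ : Γ ≤ A k R ⊔ B D)
    (h : ∀ x ∈ A k R ⊔ B D, C ↥(Γ ⊓ cj x (A k R))) : C Γ := by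
  obtain ⟨H, hH⟩ : ∃ H : Subgroup (G2 R), H = A k R ⊔ B D := ⟨_, rfl⟩
  rw [← hH] at hΓ h
  have hT : Ah k H.subtype ⊔ Bh D H.subtype = ⊤ := by
    have h1 : A k R ≤ H := by rw [hH]; exact le_sup_left
    have h2 : B D ≤ H := by rw [hH]; exact le_sup_right
    have e1 : Ah k H.subtype = (A k R).subgroupOf H := rfl
    have e2 : Bh D H.subtype = (B D).subgroupOf H := rfl
    rw [e1, e2, ← Subgroup.subgroupOf_sup h1 h2, ← hH, Subgroup.subgroupOf_self]
  obtain ⟨δ, hδ⟩ := exists_det D hT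
  have hK : C ↥(Γ.subgroupOf H) := by
    refine main D (ρ := H.subtype) hC hM hA H.subtype_injective hT δ ?_ _ ?_
    · rintro z ⟨c, hc⟩ hz
      have h1 := hδ z c hc
      rw [hz, Units.val_one] at h1
      apply Subtype.ext
      apply Units.ext
      ext i j
      have hc' : ∀ i j, ((z : G2 R) : Matrix (Fin 2) (Fin 2) R) i j =
        if i = j then algebraMap k R c else 0 := hc
      show (((z : G2 R) * (z : G2 R) : G2 R) : Matrix (Fin 2) (Fin 2) R) i j =
        ((1 : G2 R) : Matrix (Fin 2) (Fin 2) R) i j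
      have h2 : algebraMap k R c * algebraMap k R c = 1 := by
        rw [← map_mul, ← h1, map_one]
      rw [mul2, hc', hc', hc', hc', Units.val_one, Matrix.one_apply]
      fin_cases i <;> fin_cases j
      · simpa using h2
      · simp
      · simp
      · simpa using h2
    · intro x
      refine hC.base.of_injective _ _ ((H.subtype.comp (Subgroup.subtype _)).codRestrict
        (Γ ⊓ cj (x : G2 R) (A k R)) ?_) ?_ (h x x.2)
      · rintro ⟨y, hy1, hy2⟩
        refine ⟨hy1, mem_cj.2 ?_⟩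
        have h3 := mem_cj.1 hy2
        exact h3
      · intro y z hyz
        have h1 := congrArg Subtype.val hyz
        exact Subtype.ext (Subtype.ext h1)
  exact C_equiv hC.base (Subgroup.subgroupOfEquivOfLe hΓ).symm hK

end Pool.Agent.Zk85.GL
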