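import Pool.Agent.Zk85.GL.Cls

/-!
# Invertible matrices over polynomial rings in one variable
-/

set_option autoImplicit false

namespace Pool.Agent.Zk85.GL

open Matrix SimpleGraph
open Pool.Agent.Helper705_SA
open Pool.Agent.Y110.FJ (ClosedE)
open Pool.Agent.N509.TX (AcylF)
open Pool.Agent.R941.FJ (C_equiv C_le mem_sup_normal)

variable {C : ∀ (G : Type) [Group G], Prop}

section poly

variable (F : Type) [Field F]

/-- the degree of polynomials -/
noncomputable def polyDeg : Deg F (Polynomial F) where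
  n := Polynomial.natDegree
  add := Polynomial.natDegree_add_le
  nz _ _ := mul_ne_zero
  mul _ _ hx hy := Polynomial.natDegree_mul hx hy
  zero _ := Polynomial.natDegree_eq_zero

/-- the elementary matrix -/
noncomputable def el (q : Polynomial F) : G2 (Polynomial F) where
  val := !![1, q; 0, 1]
  inv := !![1, -q; 0, 1]
  val_inv := by
    rw [Matrix.mul_fin_two, Matrix.one_fin_two]
    simp
  inv_val := by
    rw [Matrix.mul_fin_two, Matrix.one_fin_two]
    simp

theorem el_mem (q : Polynomial F) : el F q ∈ B (polyDeg F) := by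
  show (!![1, q; 0, 1] : Matrix (Fin 2) (Fin 2) (Polynomial F)) 1 0 = 0
  simp

/-- the permutation matrix -/
noncomputable def sw : G2 (Polynomial F) where
  val := !![0, 1; 1, 0]
  inv := !![0, 1; 1, 0]
  val_inv := by
    rw [Matrix.mul_fin_two, Matrix.one_fin_two]
    simp
  inv_val := by
    rw [Matrix.mul_fin_two, Matrix.one_fin_two]
    simp

theorem sw_mem : sw F ∈ A F (Polynomial F) := by
  refine mem_A.2 ⟨⟨!![0, 1; 1, 0], !![0, 1; 1, 0], ?_, ?_⟩, fun i j => ?_⟩
  · rw [Matrix.mul_fin_two, Matrix.one_fin_two]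
    simp
  · rw [Matrix.mul_fin_two, Matrix.one_fin_two]
    simp
  · show (!![0, 1; 1, 0] : Matrix (Fin 2) (Fin 2) (Polynomial F)) i j = algebraMap _ _
      ((!![0, 1; 1, 0] : Matrix (Fin 2) (Fin 2) F) i j)
    fin_cases i <;> fin_cases j <;> simp

/-- the Euclidean algorithm -/
theorem eucl (n : ℕ) : ∀ g : G2 (Polynomial F),
    ((g : Matrix (Fin 2) (Fin 2) (Polynomial F)) 1 0 = 0 ∨
      ((g : Matrix (Fin 2) (Fin 2) (Polynomial F)) 1 0).natDegree < n) →
    g ∈ A F (Polynomial F) ⊔ B (polyDeg F) := by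
  induction n with
  | zero =>
    intro g hg
    rcases hg with h | h
    · exact Subgroup.mem_sup_right h
    · omega
  | succ n ih =>
    intro g hg
    by_cases h0 : (g : Matrix (Fin 2) (Fin 2) (Polynomial F)) 1 0 = 0
    · exact Subgroup.mem_sup_right h0
    obtain ⟨a, ha⟩ : ∃ a, a = (g : Matrix (Fin 2) (Fin 2) (Polynomial F)) 0 0 := ⟨_, rfl⟩
    obtain ⟨c, hc⟩ : ∃ c, c = (g : Matrix (Fin 2) (Fin 2) (Polynomial F)) 1 0 := ⟨_, rfl⟩
    rw [← hc] at h0 hg
    obtain ⟨g', hg'⟩ : ∃ g', g' = sw F * (el F (-(a / c)) * g) := ⟨_, rfl⟩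
    have e1 : (g' : Matrix (Fin 2) (Fin 2) (Polynomial F)) 1 0 = a % c := by
      rw [hg', mul2, mul2, mul2, ← ha, ← hc]
      show (1 : Polynomial F) * (1 * a + -(a / c) * c) + 0 * (0 * a + 1 * c) = a % c
      have := EuclideanDomain.div_add_mod a c
      linear_combination -this
    have h1 : g' ∈ A F (Polynomial F) ⊔ B (polyDeg F) := by
      apply ih
      rw [e1]
      by_cases hr : a % c = 0
      · exact Or.inl hr
      · right
        have h2 : (a % c).natDegree < c.natDegree :=
          Polynomial.natDegree_lt_natDegree hr (Polynomial.degree_mod_lt a h0)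
        rcases hg with h | h
        · exact absurd h h0
        · omega
    have h2 : g = (el F (-(a / c)))⁻¹ * ((sw F)⁻¹ * g') := by
      rw [hg']
      group
    rw [h2]
    exact mul_mem (inv_mem (Subgroup.mem_sup_right (el_mem F _)))
      (mul_mem (inv_mem (Subgroup.mem_sup_left (sw_mem F))) h1)

/-- the group is generated by the two subgroups -/
theorem gen : Ah F (MonoidHom.id (G2 (Polynomial F))) ⊔
    Bh (polyDeg F) (MonoidHom.id (G2 (Polynomial F))) = ⊤ := by
  rw [eq_top_iff]
  intro g _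
  exact eucl F _ g (Or.inr (Nat.lt_succ_self _))

/-- **matrices over polynomial rings in one variable** -/
theorem poly_main (hC : ClosedE C) (hM : ∀ (G : Type) [Group G], derivedSeries G 2 = ⊥ → C G)
    (hA : AcylF C) (K : Subgroup (G2 (Polynomial F)))
    (h : ∀ x, C ↥(K ⊓ cj x (A F (Polynomial F)))) : C K := by
  refine main (polyDeg F) (ρ := MonoidHom.id (G2 (Polynomial F))) hC hM hA
    (fun _ _ h => h) (gen F) (Z := (Polynomial F)ˣ) (Units.map Matrix.detMonoidHom) ?_ K h
  rintro z ⟨c, hc⟩ hz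
  have h1 : Matrix.det (z : Matrix (Fin 2) (Fin 2) (Polynomial F)) = 1 :=
    congrArg Units.val hz
  have hc' : ∀ i j, (z : Matrix (Fin 2) (Fin 2) (Polynomial F)) i j =
    if i = j then algebraMap F (Polynomial F) c else 0 := hc
  rw [Matrix.det_fin_two, hc', hc', hc', hc', if_pos rfl, if_pos rfl, if_neg (by decide),
    zero_mul, sub_zero] at h1
  apply Units.ext
  ext1 i j
  rw [mul2, hc', hc', hc', hc', Units.val_one, Matrix.one_apply]
  fin_cases i <;> fin_cases j
  · simpa using h1
  · simp
  · simp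
  · simpa using h1

end poly

end Pool.Agent.Zk85.GL
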