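import Pool.Agent.Zk85.GL.Lat
import Pool.Agent.Zk85.GL.Pol

/-!
# Groups of matrices with bounded denominators over polynomial rings
-/

set_option autoImplicit false

namespace Pool.Agent.Zk85.GL

open Matrix
open Pool.Agent.Y110.FJ (ClosedE)
open Pool.Agent.N509.TX (AcylF of_fg)
open Pool.Agent.R941.FJ (C_equiv C_le)

/-- all groups of invertible matrices of size two with entries in a field containing `A`, with
denominators bounded by an element of `A`, are in the class -/
def BD (C : ∀ (G : Type) [Group G], Prop) (A : Type) [CommRing A] : Prop :=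
  ∀ (L : Type) [Field L] [Algebra A L], Function.Injective (algebraMap A L) → ∀ Γ : Subgroup (G2 L),
    (∃ d : A, d ≠ 0 ∧ ∀ γ ∈ Γ, ∀ i j, ∃ a : A, algebraMap A L a =
      algebraMap A L d * (γ : Matrix (Fin 2) (Fin 2) L) i j) → C Γ

variable {C : ∀ (G : Type) [Group G], Prop}

/-- transport of a group of matrices -/
theorem tr (hC : ClosedE C) {G G' : Type} [Group G] [Group G'] (κ : G' →* G)
    (hκ : Function.Injective κ) (K : Subgroup G) (y : G) (hK : ∀ g ∈ K, y⁻¹ * g * y ∈ κ.range)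
    (h : C ↥((K.map (MulAut.conj y⁻¹).toMonoidHom).comap κ)) : C K := by
  obtain ⟨K1, hK1⟩ : ∃ K1, K1 = K.map (MulAut.conj y⁻¹).toMonoidHom := ⟨_, rfl⟩
  rw [← hK1] at h
  have hle : K1 ≤ κ.range := by
    rw [hK1]
    rintro _ ⟨g, hg, rfl⟩
    have := hK g hg
    show y⁻¹ * g * y⁻¹⁻¹ ∈ _
    rwa [inv_inv]
  have h1 : C ↥((K1.comap κ).map κ) :=
    C_equiv hC.base ((K1.comap κ).equivMapOfInjective κ hκ).symm h
  rw [Subgroup.map_comap_eq_self hle, hK1] at h1
  exact C_equiv hC.base (K.equivMapOfInjective _ (MulAut.conj y⁻¹).injective) h1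

/-- the homomorphism of the groups of matrices -/
def gm {R S : Type} [Ring R] [Ring S] (f : R →+* S) : G2 R →* G2 S :=
  Units.map (f.mapMatrix (m := Fin 2)).toMonoidHom

theorem gm_apply {R S : Type} [Ring R] [Ring S] (f : R →+* S) (g : G2 R) (i j : Fin 2) :
    ((gm f g : G2 S) : Matrix (Fin 2) (Fin 2) S) i j =
      f ((g : Matrix (Fin 2) (Fin 2) R) i j) := rfl

theorem gm_inj {R S : Type} [Ring R] [Ring S] {f : R →+* S} (hf : Function.Injective f) :
    Function.Injective (gm f) := by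
  intro a b hab
  apply Units.ext
  ext i j
  apply hf
  rw [← gm_apply, ← gm_apply, hab]

/-- groups of matrices with entries in the image of an injective homomorphism -/
theorem gm_range {R S : Type} [Ring R] [Ring S] {f : R →+* S} (hf : Function.Injective f)
    {g : G2 S} (h : ∀ i j, ∃ a, f a = (g : Matrix (Fin 2) (Fin 2) S) i j)
    (h' : ∀ i j, ∃ a, f a = ((g⁻¹ : G2 S) : Matrix (Fin 2) (Fin 2) S) i j) : g ∈ (gm f).range := by
  choose a ha using h
  choose b hb using h'
  have hinj : Function.Injective (fun m : Matrix (Fin 2) (Fin 2) R => m.map f) :=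
    Matrix.map_injective hf
  have ea : (Matrix.of a).map f = (g : Matrix (Fin 2) (Fin 2) S) := by
    ext i j
    exact ha i j
  have eb : (Matrix.of b).map f = ((g⁻¹ : G2 S) : Matrix (Fin 2) (Fin 2) S) := by
    ext i j
    exact hb i j
  refine ⟨⟨Matrix.of a, Matrix.of b, ?_, ?_⟩, ?_⟩
  · apply hinj
    show (Matrix.of a * Matrix.of b).map f = (1 : Matrix (Fin 2) (Fin 2) R).map f
    rw [Matrix.map_mul, ea, eb, Units.mul_inv, Matrix.map_one _ (map_zero _) (map_one _)]
  · apply hinj
    show (Matrix.of b * Matrix.of a).map f = (1 : Matrix (Fin 2) (Fin 2) R).map f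
    rw [Matrix.map_mul, ea, eb, Units.inv_mul, Matrix.map_one _ (map_zero _) (map_one _)]
  · apply Units.ext
    ext i j
    exact ha i j

/-- fields -/
theorem BD.field (hC : ClosedE C) {K : Type} [Field K] (h : C (G2 K)) : BD C K := by
  rintro L _ _ hinj Γ ⟨d, hd, hΓ⟩
  have hd' : algebraMap K L d ≠ 0 := by
    rw [Ne, ← map_zero (algebraMap K L)]
    exact fun h => hd (hinj h)
  have hent : ∀ γ ∈ Γ, ∀ i j, ∃ a : K, algebraMap K L a =
      (γ : Matrix (Fin 2) (Fin 2) L) i j := by
    intro γ hγ i j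
    obtain ⟨a, ha⟩ := hΓ γ hγ i j
    refine ⟨a / d, ?_⟩
    rw [map_div₀, ha, mul_div_cancel_left₀ _ hd']
  refine tr hC (gm (algebraMap K L)) (gm_inj hinj) Γ 1 ?_ ?_
  · intro g hg
    rw [inv_one, one_mul, mul_one]
    exact gm_range hinj (hent g hg) (hent _ (inv_mem hg))
  · exact hC.base.of_injective _ _ (Subgroup.subtype _) (Subgroup.subtype_injective _) h

/-- the whole group -/
theorem BD.whole (hC : ClosedE C) {A : Type} [CommRing A] [IsDomain A] (h : BD C A) : C (G2 A) := by
  have hinj := IsFractionRing.injective A (FractionRing A)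
  have h1 : C ↥(gm (algebraMap A (FractionRing A))).range := by
    refine h (FractionRing A) hinj _ ⟨1, one_ne_zero, ?_⟩
    rintro _ ⟨g, rfl⟩ i j
    exact ⟨(g : Matrix (Fin 2) (Fin 2) A) i j, by rw [map_one, one_mul]; rfl⟩
  exact C_equiv hC.base (MonoidHom.ofInjective (gm_inj hinj)) h1

/-- isomorphic rings -/
theorem BD.equiv {A A' : Type} [CommRing A] [CommRing A'] (e : A ≃+* A') (h : BD C A) : BD C A' := by
  rintro L _ _ hinj Γ ⟨d, hd, hΓ⟩
  let _ : Algebra A L := ((algebraMap A' L).comp e.toRingHom).toAlgebra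
  have hal : ∀ a : A, algebraMap A L a = algebraMap A' L (e a) := fun a => rfl
  refine h L ?_ Γ ⟨e.symm d, ?_, ?_⟩
  · intro a b hab
    rw [hal, hal] at hab
    exact e.injective (hinj hab)
  · intro h0
    apply hd
    rw [← e.apply_symm_apply d, h0, map_zero]
  · intro γ hγ i j
    obtain ⟨a, ha⟩ := hΓ γ hγ i j
    refine ⟨e.symm a, ?_⟩
    rw [hal, hal, e.apply_symm_apply, e.apply_symm_apply, ha]

section poly

variable {A : Type} [CommRing A] [IsDomain A]

/-- denominators of polynomials -/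
theorem clear (f : Polynomial (FractionRing A)) : ∃ s : A, s ≠ 0 ∧ ∃ a : Polynomial A,
    Polynomial.mapRingHom (algebraMap A (FractionRing A)) a =
      Polynomial.C (algebraMap A (FractionRing A) s) * f := by
  obtain ⟨m, hm⟩ : ∃ m : Polynomial A →+* Polynomial (FractionRing A),
    m = Polynomial.mapRingHom (algebraMap A (FractionRing A)) := ⟨_, rfl⟩
  have hC : ∀ a, m (Polynomial.C a) = Polynomial.C (algebraMap A (FractionRing A) a) := by
    intro a
    rw [hm]
    exact Polynomial.map_C _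
  have hX : m Polynomial.X = Polynomial.X := by
    rw [hm]
    exact Polynomial.map_X _
  rw [← hm]
  induction f using Polynomial.induction_on with
  | C u =>
    obtain ⟨⟨a, s⟩, h⟩ := IsLocalization.surj (nonZeroDivisors A) u
    refine ⟨s, nonZeroDivisors.ne_zero s.2, Polynomial.C a, ?_⟩
    rw [hC, ← map_mul, ← h, mul_comm]
  | add p q hp hq =>
    obtain ⟨s, hs, a, ha⟩ := hp
    obtain ⟨t, ht, b, hb⟩ := hq
    refine ⟨s * t, mul_ne_zero hs ht, Polynomial.C t * a + Polynomial.C s * b, ?_⟩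
    rw [map_add, map_mul, map_mul, ha, hb, hC, hC, map_mul, map_mul]
    ring
  | monomial n u h =>
    obtain ⟨s, hs, a, ha⟩ := h
    refine ⟨s, hs, a * Polynomial.X, ?_⟩
    rw [map_mul, ha, hX, pow_succ]
    ring

/-- common denominators -/
theorem clear_fin {κ : Type} [Fintype κ] (f : κ → Polynomial (FractionRing A)) :
    ∃ s : A, s ≠ 0 ∧ ∀ k, ∃ a : Polynomial A,
      Polynomial.mapRingHom (algebraMap A (FractionRing A)) a =
        Polynomial.C (algebraMap A (FractionRing A) s) * f k := by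
  classical
  choose s hs a ha using fun k => clear (f k)
  refine ⟨∏ k, s k, Finset.prod_ne_zero_iff.2 fun k _ => hs k, fun k => ?_⟩
  refine ⟨Polynomial.C (∏ l ∈ Finset.univ.erase k, s l) * a k, ?_⟩
  rw [map_mul, ha, ← Finset.mul_prod_erase _ _ (Finset.mem_univ k), map_mul, map_mul,
    Polynomial.coe_mapRingHom, Polynomial.map_C]
  ring

/-- **polynomial rings** -/
theorem BD.poly (hC : ClosedE C) (hM : ∀ (G : Type) [Group G], derivedSeries G 2 = ⊥ → C G)
    (hAc : AcylF C) (hA : BD C A) : BD C (Polynomial A) := by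
  classical
  rintro L _ _ hinj Γ ⟨d, hd, hΓ⟩
  obtain ⟨g, hg⟩ : ∃ g : Polynomial A →+* L, g = algebraMap (Polynomial A) L := ⟨_, rfl⟩
  rw [← hg] at hinj
  have hginj : Function.Injective g := hinj
  obtain ⟨m, hm⟩ : ∃ m : Polynomial A →+* Polynomial (FractionRing A),
    m = Polynomial.mapRingHom (algebraMap A (FractionRing A)) := ⟨_, rfl⟩
  have hminj : Function.Injective m := by
    rw [hm]
    exact Polynomial.map_injective _ (IsFractionRing.injective A (FractionRing A))
  have hmC : ∀ a, m (Polynomial.C a) = Polynomial.C (algebraMap A (FractionRing A) a) := by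
    intro a
    rw [hm]
    exact Polynomial.map_C _
  -- the extension to the polynomials over the fraction field
  obtain ⟨θ, hθ⟩ : ∃ θ : Polynomial (FractionRing A) →+* L, ∀ a, θ (m a) = g a := by
    have h1 : Function.Injective (g.comp Polynomial.C) := hginj.comp Polynomial.C_injective
    obtain ⟨h, hh⟩ : ∃ h : FractionRing A →+* L, ∀ a, h (algebraMap A (FractionRing A) a) =
        g (Polynomial.C a) :=
      ⟨IsFractionRing.lift h1, fun a => IsFractionRing.lift_algebraMap h1 a⟩
    refine ⟨Polynomial.eval₂RingHom h (g Polynomial.X), ?_⟩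
    have h2 : (Polynomial.eval₂RingHom h (g Polynomial.X)).comp m = g := by
      refine Polynomial.ringHom_ext ?_ ?_
      · intro a
        rw [RingHom.comp_apply, hmC, Polynomial.coe_eval₂RingHom, Polynomial.eval₂_C, hh]
      · rw [RingHom.comp_apply, hm, Polynomial.coe_mapRingHom, Polynomial.map_X,
          Polynomial.coe_eval₂RingHom, Polynomial.eval₂_X]
    intro a
    exact congrArg (fun f : Polynomial A →+* L => f a) h2
  have hθinj : Function.Injective θ := by
    rw [injective_iff_map_eq_zero]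
    intro f hf
    obtain ⟨s, hs, a, ha⟩ := clear f
    rw [← hm] at ha
    have h1 : g a = 0 := by
      rw [← hθ, ha, map_mul, hf, mul_zero]
    have h2 : a = 0 := hginj (by rw [h1, map_zero])
    rw [h2, map_zero] at ha
    have h3 : (Polynomial.C (algebraMap A (FractionRing A) s)) ≠ 0 := by
      rw [Ne, Polynomial.C_eq_zero]
      exact fun h => hs (IsFractionRing.injective A (FractionRing A) (by rw [h, map_zero]))
    exact (mul_eq_zero.1 ha.symm).resolve_left h3
  -- the lattice
  let _ : Algebra (Polynomial (FractionRing A)) L := θ.toAlgebra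
  have hθa : ∀ f, algebraMap (Polynomial (FractionRing A)) L f = θ f := fun f => rfl
  have hmd : m d ≠ 0 := fun h => hd (hminj (by rw [h, map_zero]))
  obtain ⟨x, hx1, hx2, hx3⟩ := lattice (P := Polynomial (FractionRing A)) (L := L) hθinj Γ (m d) hmd
    (by
      intro γ hγ i j
      obtain ⟨a, ha⟩ := hΓ γ hγ i j
      rw [← hg] at ha
      exact ⟨m a, by rw [hθa, hθa, hθ, hθ, ha]⟩)
  refine tr hC (gm θ) (gm_inj hθinj) Γ x ?_ ?_
  · intro γ hγ
    obtain ⟨p, hp⟩ := hx3 γ hγ
    refine ⟨p, ?_⟩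
    apply Units.ext
    ext i j
    rw [gm_apply, hp]
    rfl
  obtain ⟨Γ', hΓ'⟩ : ∃ Γ' : Subgroup (G2 (Polynomial (FractionRing A))),
    Γ' = (Γ.map (MulAut.conj x⁻¹).toMonoidHom).comap (gm θ) := ⟨_, rfl⟩
  rw [← hΓ']
  have hmem : ∀ p ∈ Γ', ∃ γ ∈ Γ, gm θ p = x⁻¹ * γ * x := by
    intro p hp
    rw [hΓ'] at hp
    obtain ⟨γ, hγ, h⟩ := hp
    refine ⟨γ, hγ, ?_⟩
    rw [← h]
    show x⁻¹ * γ * x⁻¹⁻¹ = _
    rw [inv_inv]
  refine poly_main (FractionRing A) hC hM hAc Γ' fun y => ?_
  have hFinj : Function.Injective (algebraMap (FractionRing A) (Polynomial (FractionRing A))) :=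
    (algebraMap (FractionRing A) (Polynomial (FractionRing A))).injective
  refine tr hC (gm (algebraMap (FractionRing A) (Polynomial (FractionRing A)))) (gm_inj hFinj) _ y
    ?_ ?_
  · rintro p ⟨-, hp⟩
    exact mem_cj.1 hp
  refine hA (FractionRing A) (IsFractionRing.injective A (FractionRing A)) _ ?_
  -- the denominators of `z = x y`
  choose X hX using hx1
  choose X' hX' using hx2
  obtain ⟨s, hs, hs'⟩ := clear_fin (κ := Bool × Fin 2 × Fin 2) (fun k =>
    if k.1 then ∑ l, X k.2.1 l * (y : Matrix (Fin 2) (Fin 2) (Polynomial (FractionRing A))) l k.2.2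
    else ∑ l, ((y⁻¹ : G2 _) : Matrix (Fin 2) (Fin 2) (Polynomial (FractionRing A))) k.2.1 l *
      X' l k.2.2)
  rw [← hm] at hs'
  obtain ⟨z, hz⟩ : ∃ z, z = x * gm θ y := ⟨_, rfl⟩
  have hz1 : ∀ i j, ∃ a, g a = g (Polynomial.C s * d) * (z : Matrix (Fin 2) (Fin 2) L) i j := by
    intro i j
    obtain ⟨a, ha⟩ := hs' (true, i, j)
    refine ⟨a, ?_⟩
    rw [← hθ, ha, map_mul θ, map_mul g, ← hmC, hθ, hz, Units.val_mul, Matrix.mul_apply,
      mul_assoc (g (Polynomial.C s)), Finset.mul_sum]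
    congr 1
    show θ (∑ l, X i l * (y : Matrix (Fin 2) (Fin 2) (Polynomial (FractionRing A))) l j) = _
    rw [map_sum]
    refine Finset.sum_congr rfl fun l _ => ?_
    have h1 := hX i l
    rw [hθa, hθa, hθ] at h1
    rw [map_mul, h1, gm_apply]
    ring
  have hz2 : ∀ i j, ∃ a, g a = g (Polynomial.C s * d) *
      ((z⁻¹ : G2 L) : Matrix (Fin 2) (Fin 2) L) i j := by
    intro i j
    obtain ⟨a, ha⟩ := hs' (false, i, j)
    refine ⟨d * a, ?_⟩
    have h2 : z⁻¹ = gm θ y⁻¹ * x⁻¹ := by rw [hz, _root_.mul_inv_rev, map_inv]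
    rw [map_mul g, ← hθ a, ha, map_mul θ, map_mul g, ← hmC, hθ, h2, Units.val_mul,
      Matrix.mul_apply]
    have h3 : θ (if ((false, i, j) : Bool × Fin 2 × Fin 2).1 = true then
        ∑ l, X ((false, i, j) : Bool × Fin 2 × Fin 2).2.1 l *
          (y : Matrix (Fin 2) (Fin 2) (Polynomial (FractionRing A))) l
            ((false, i, j) : Bool × Fin 2 × Fin 2).2.2
        else ∑ l, ((y⁻¹ : G2 _) : Matrix (Fin 2) (Fin 2) (Polynomial (FractionRing A)))
          ((false, i, j) : Bool × Fin 2 × Fin 2).2.1 l *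
          X' l ((false, i, j) : Bool × Fin 2 × Fin 2).2.2) =
        ∑ l, ((gm θ y⁻¹ : G2 L) : Matrix (Fin 2) (Fin 2) L) i l *
          ((x⁻¹ : G2 L) : Matrix (Fin 2) (Fin 2) L) l j := by
      show θ (∑ l, ((y⁻¹ : G2 _) : Matrix (Fin 2) (Fin 2) (Polynomial (FractionRing A))) i l *
        X' l j) = _
      rw [map_sum]
      refine Finset.sum_congr rfl fun l _ => ?_
      have h1 := hX' l j
      rw [hθa] at h1
      rw [map_mul, h1, gm_apply]
    rw [h3]
    ring
  obtain ⟨E, hE⟩ : ∃ E : Polynomial A, E = (Polynomial.C s * d) * (Polynomial.C s * d) * d :=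
    ⟨_, rfl⟩
  have hCs : Polynomial.C s ≠ 0 := by
    rw [Ne, Polynomial.C_eq_zero]
    exact hs
  have hE0 : E ≠ 0 := by
    rw [hE]
    exact mul_ne_zero (mul_ne_zero (mul_ne_zero hCs hd) (mul_ne_zero hCs hd)) hd
  refine ⟨E.leadingCoeff, Polynomial.leadingCoeff_ne_zero.2 hE0, ?_⟩
  rintro σ hσ i j
  obtain ⟨p, hp, hpσ⟩ := hσ
  have hp' : y⁻¹ * p * y = gm (algebraMap (FractionRing A) (Polynomial (FractionRing A))) σ := by
    rw [← hpσ]
    show _ = y⁻¹ * p * y⁻¹⁻¹
    rw [inv_inv]
  obtain ⟨γ, hγ, hγp⟩ := hmem p hp.1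
  have e1 : gm θ (gm (algebraMap (FractionRing A) (Polynomial (FractionRing A))) σ) =
      z⁻¹ * γ * z := by
    rw [← hp', map_mul, map_mul, hγp, hz, map_inv]
    group
  choose Z1 hZ1 using hz1
  choose Z2 hZ2 using hz2
  choose Y hY using fun l l' => hΓ γ hγ l l'
  have e2 : g E * θ (Polynomial.C ((σ : Matrix (Fin 2) (Fin 2) (FractionRing A)) i j)) =
      g (∑ l, (∑ l', Z2 i l' * Y l' l) * Z1 l j) := by
    have h1 : θ (Polynomial.C ((σ : Matrix (Fin 2) (Fin 2) (FractionRing A)) i j)) =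
        ((z⁻¹ * γ * z : G2 L) : Matrix (Fin 2) (Fin 2) L) i j := by
      rw [← e1, gm_apply, gm_apply]
      rfl
    rw [h1, Units.val_mul, Units.val_mul, Matrix.mul_apply, map_sum, Finset.mul_sum]
    refine Finset.sum_congr rfl fun l _ => ?_
    rw [Matrix.mul_apply, map_mul, map_sum, hZ1, Finset.sum_mul, Finset.sum_mul, Finset.mul_sum]
    refine Finset.sum_congr rfl fun l' _ => ?_
    have h2 := hY l' l
    rw [← hg] at h2
    rw [map_mul, hZ2, h2, hE, map_mul g, map_mul g]
    ring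
  have e3 : m E * Polynomial.C ((σ : Matrix (Fin 2) (Fin 2) (FractionRing A)) i j) =
      m (∑ l, (∑ l', Z2 i l' * Y l' l) * Z1 l j) := by
    apply hθinj
    rw [map_mul, hθ, hθ, e2]
  have e4 := congrArg (fun f => Polynomial.coeff f E.natDegree) e3
  simp only [Polynomial.coeff_mul_C] at e4
  rw [hm, Polynomial.coe_mapRingHom, Polynomial.coeff_map, Polynomial.coeff_map] at e4
  exact ⟨_, e4.symm⟩

end poly

end Pool.Agent.Zk85.GL
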