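import Pool.Agent.Zk85.GL.Deg

/-!
# Groups of matrices with bounded denominators over a principal ideal domain
-/

set_option autoImplicit false

namespace Pool.Agent.Zk85.GL

open Matrix

section

variable {P L : Type} [CommRing P] [IsDomain P] [IsPrincipalIdealRing P] [Field L] [Algebra P L]

/-- **groups of matrices with bounded denominators preserve a free lattice** -/
theorem lattice (hinj : Function.Injective (algebraMap P L)) (Γ : Subgroup (G2 L)) (d : P)
    (hd : d ≠ 0) (h : ∀ γ ∈ Γ, ∀ i j, ∃ a : P, algebraMap P L a =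
      algebraMap P L d * (γ : Matrix (Fin 2) (Fin 2) L) i j) :
    ∃ x : G2 L, (∀ i j, ∃ a : P, algebraMap P L a =
        algebraMap P L d * (x : Matrix (Fin 2) (Fin 2) L) i j) ∧
      (∀ i j, ∃ a : P, algebraMap P L a = ((x⁻¹ : G2 L) : Matrix (Fin 2) (Fin 2) L) i j) ∧
      ∀ γ ∈ Γ, ∃ p : G2 P, ∀ i j, ((x⁻¹ * γ * x : G2 L) : Matrix (Fin 2) (Fin 2) L) i j =
        algebraMap P L ((p : Matrix (Fin 2) (Fin 2) P) i j) := by
  classical
  have hd' : algebraMap P L d ≠ 0 := by
    rw [Ne, ← map_zero (algebraMap P L)]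
    exact fun h => hd (hinj h)
  let φ : (Fin 2 → P) →ₗ[P] (Fin 2 → L) :=
    { toFun := fun w i => (algebraMap P L d)⁻¹ * algebraMap P L (w i)
      map_add' := fun v w => by
        funext i
        show _ * algebraMap P L (v i + w i) = _ * _ + _ * _
        rw [map_add, mul_add]
      map_smul' := fun r w => by
        funext i
        show (algebraMap P L d)⁻¹ * algebraMap P L (r * w i) =
          r • ((algebraMap P L d)⁻¹ * algebraMap P L (w i))
        rw [map_mul, Algebra.smul_def]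
        ring }
  obtain ⟨S, hS⟩ : ∃ S : Set (Fin 2 → L), S = {v | ∃ γ ∈ Γ, ∃ j, v = fun i =>
    (γ : Matrix (Fin 2) (Fin 2) L) i j} := ⟨_, rfl⟩
  obtain ⟨M, hM⟩ : ∃ M : Submodule P (Fin 2 → L), M = Submodule.span P S := ⟨_, rfl⟩
  have hMφ : M ≤ LinearMap.range φ := by
    rw [hM, Submodule.span_le, hS]
    rintro v ⟨γ, hγ, j, rfl⟩
    choose a ha using fun i => h γ hγ i j
    refine ⟨a, ?_⟩
    funext i
    show (algebraMap P L d)⁻¹ * algebraMap P L (a i) = _
    rw [ha, inv_mul_cancel_left₀ hd']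
  obtain ⟨n, b⟩ := Submodule.basisOfPid (Pi.basisFun P (Fin 2)) (M.comap φ)
  have hn : n ≤ 2 := by
    have h1 : LinearIndependent P (fun j => ((b j : M.comap φ) : Fin 2 → P)) :=
      b.linearIndependent.map' (M.comap φ).subtype (Submodule.ker_subtype _)
    have h2 := h1.fintype_card_le_finrank
    rwa [Fintype.card_fin, Module.finrank_fin_fun] at h2
  obtain ⟨c, hc⟩ : ∃ c : Fin n → Fin 2 → L, c = fun j => φ (b j) := ⟨_, rfl⟩
  have hcM : ∀ j, c j ∈ M := fun j => by
    rw [hc]
    exact (b j).2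
  have hcomb : ∀ v ∈ M, ∃ y : Fin n → P, ∀ i, v i = ∑ j, c j i * algebraMap P L (y j) := by
    intro v hv
    obtain ⟨w, hw⟩ := hMφ hv
    have hwN : w ∈ M.comap φ := by
      show φ w ∈ M
      rw [hw]
      exact hv
    refine ⟨fun j => b.repr ⟨w, hwN⟩ j, fun i => ?_⟩
    have h1 := congrArg (fun z : M.comap φ => φ z) (b.sum_repr ⟨w, hwN⟩)
    simp only [Submodule.coe_sum, Submodule.coe_smul, map_sum, map_smul] at h1
    rw [hw] at h1
    rw [← h1, Finset.sum_apply]
    refine Finset.sum_congr rfl fun j _ => ?_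
    rw [hc]
    show (b.repr ⟨w, hwN⟩ j) • (φ (b j) i) = _
    rw [Algebra.smul_def, mul_comm]
  have hstd : ∀ k : Fin 2, (fun i => (1 : Matrix (Fin 2) (Fin 2) L) i k) ∈ M := by
    intro k
    rw [hM]
    refine Submodule.subset_span ?_
    rw [hS]
    exact ⟨1, one_mem _, k, rfl⟩
  choose y hy using fun k => hcomb _ (hstd k)
  have hn2 : n = 2 := by
    interval_cases n
    · have := hy 0 0
      simp at this
    · have h00 := hy 0 0
      have h01 := hy 0 1
      have h10 := hy 1 0
      have h11 := hy 1 1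
      simp only [Fin.sum_univ_one] at h00 h01 h10 h11
      simp at h00 h01 h10 h11
      rcases h01 with h | h
      · rw [h, zero_mul] at h11
        exact absurd h11 (by simp)
      · rw [h, mul_zero] at h00
        exact absurd h00 (by simp)
    · rfl
  subst hn2
  have hXY : (Matrix.of fun i j => c j i) * (Matrix.of fun j k => algebraMap P L (y k j)) =
      (1 : Matrix (Fin 2) (Fin 2) L) := by
    ext i k
    rw [Matrix.mul_apply]
    exact (hy k i).symm
  obtain ⟨x, hx, hx'⟩ : ∃ x : G2 L, (∀ i j, (x : Matrix (Fin 2) (Fin 2) L) i j = c j i) ∧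
      ∀ i j, ((x⁻¹ : G2 L) : Matrix (Fin 2) (Fin 2) L) i j = algebraMap P L (y j i) :=
    ⟨⟨_, _, hXY, mul_eq_one_comm.1 hXY⟩, fun i j => rfl, fun i j => rfl⟩
  have hstab : ∀ γ ∈ Γ, ∀ v ∈ M, (γ : Matrix (Fin 2) (Fin 2) L).mulVec v ∈ M := by
    intro γ hγ v hv
    rw [hM] at hv ⊢
    induction hv using Submodule.span_induction with
    | mem v hv =>
      refine Submodule.subset_span ?_
      rw [hS] at hv ⊢
      obtain ⟨γ', hγ', j, rfl⟩ := hv
      refine ⟨γ * γ', mul_mem hγ hγ', j, ?_⟩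
      funext i
      rw [Units.val_mul, Matrix.mul_apply]
      rfl
    | zero =>
      rw [Matrix.mulVec_zero]
      exact zero_mem _
    | add u v _ _ hu hv =>
      rw [Matrix.mulVec_add]
      exact add_mem hu hv
    | smul r v _ hv =>
      rw [Matrix.mulVec_smul]
      exact Submodule.smul_mem _ r hv
  have key : ∀ γ ∈ Γ, ∃ p : Matrix (Fin 2) (Fin 2) P,
      ((x⁻¹ * γ * x : G2 L) : Matrix (Fin 2) (Fin 2) L) = p.map (algebraMap P L) := by
    intro γ hγ
    choose q hq using fun j => hcomb _ (hstab γ hγ (c j) (hcM j))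
    refine ⟨Matrix.of fun i j => q j i, ?_⟩
    have h1 : (γ : Matrix (Fin 2) (Fin 2) L) * (x : Matrix (Fin 2) (Fin 2) L) =
        (x : Matrix (Fin 2) (Fin 2) L) *
          (Matrix.of fun i j => q j i : Matrix (Fin 2) (Fin 2) P).map (algebraMap P L) := by
      ext i j
      rw [Matrix.mul_apply, Matrix.mul_apply]
      have h2 := hq j i
      have h3 : (γ : Matrix (Fin 2) (Fin 2) L).mulVec (c j) i =
          ∑ l, (γ : Matrix (Fin 2) (Fin 2) L) i l * (x : Matrix (Fin 2) (Fin 2) L) l j := by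
        simp only [Matrix.mulVec, dotProduct]
        exact Finset.sum_congr rfl fun l _ => by rw [hx]
      rw [← h3, h2]
      exact Finset.sum_congr rfl fun l _ => by rw [hx]; rfl
    rw [Units.val_mul, Units.val_mul, mul_assoc, h1, ← mul_assoc, Units.inv_mul, one_mul]
  refine ⟨x, fun i j => ?_, fun i j => ⟨y j i, (hx' i j).symm⟩, fun γ hγ => ?_⟩
  · refine ⟨((b j : M.comap φ) : Fin 2 → P) i, ?_⟩
    rw [hx, hc]
    show _ = algebraMap P L d * ((algebraMap P L d)⁻¹ * _)
    rw [mul_inv_cancel_left₀ hd']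
  obtain ⟨p, hp⟩ := key γ hγ
  obtain ⟨p', hp'⟩ := key γ⁻¹ (inv_mem hγ)
  have hmapinj : Function.Injective (fun m : Matrix (Fin 2) (Fin 2) P => m.map (algebraMap P L)) :=
    Matrix.map_injective hinj
  have e1 : p * p' = 1 := by
    apply hmapinj
    show (p * p').map (algebraMap P L) = (1 : Matrix (Fin 2) (Fin 2) P).map (algebraMap P L)
    rw [Matrix.map_mul, ← hp, ← hp', ← Units.val_mul]
    have : x⁻¹ * γ * x * (x⁻¹ * γ⁻¹ * x) = 1 := by group
    rw [this, Units.val_one, Matrix.map_one _ (map_zero _) (map_one _)]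
  refine ⟨⟨p, p', e1, mul_eq_one_comm.1 e1⟩, fun i j => ?_⟩
  rw [hp]
  rfl

end

end Pool.Agent.Zk85.GL
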