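import Pool.Agent.Zk85.GL.Deg

/-!
# Invertible matrices over algebras with a degree function: the tree is acyclic; stabilizers of paths
-/

set_option autoImplicit false

namespace Pool.Agent.Zk85.GL

open Matrix SimpleGraph
open Pool.Agent.Helper705_SA

variable {k R : Type} [Field k] [Ring R] [Algebra k R] [Nontrivial R] (D : Deg k R)
variable {H : Type} [Group H] (ρ : H →* G2 R)

/-- the preimage of the matrices over the field -/
def Ah (k : Type) {R : Type} [Field k] [Ring R] [Algebra k R] {H : Type} [Group H] (ρ : H →* G2 R) :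
    Subgroup H := (A k R).comap ρ

/-- the preimage of the upper triangular matrices -/
def Bh : Subgroup H := (B D).comap ρ

omit [Nontrivial R] in
theorem mem_Ah {x : H} : x ∈ Ah k ρ ↔ ρ x ∈ A k R := Iff.rfl

omit [Nontrivial R] in
theorem mem_Bh {x : H} : x ∈ Bh D ρ ↔ ρ x ∈ B D := Iff.rfl

/-- the vertices -/
abbrev Vx : Type := (H ⧸ Ah k ρ) ⊕ (H ⧸ Bh D ρ)

/-- the tree -/
abbrev Tr : SimpleGraph (Vx D ρ) := cosetGraph (Ah k ρ) (Bh D ρ)

/-- the level of a vertex -/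
def lvl : Vx D ρ → ℕ
  | Sum.inl v => 2 * Quotient.liftOn' v (fun φ => lv D (ρ φ)) (fun a b hab => by
      rw [QuotientGroup.leftRel_apply] at hab
      have h1 : ρ b = ρ a * ρ (a⁻¹ * b) := by rw [← map_mul, mul_inv_cancel_left]
      show lv D (ρ a) = lv D (ρ b)
      rw [h1, lv_mul D ((mem_Ah ρ).1 hab)])
  | Sum.inr v => 2 * Quotient.liftOn' v (fun φ => c0 D (ρ φ)) (fun a b hab => by
      rw [QuotientGroup.leftRel_apply] at hab
      have h1 : ρ b = ρ a * ρ (a⁻¹ * b) := by rw [← map_mul, mul_inv_cancel_left]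
      show c0 D (ρ a) = c0 D (ρ b)
      rw [h1, c0_mul D ((mem_Bh D ρ).1 hab)]) + 1

theorem lvl_inl (φ : H) : lvl D ρ (Sum.inl (QuotientGroup.mk φ)) = 2 * lv D (ρ φ) := rfl

theorem lvl_inr (φ : H) : lvl D ρ (Sum.inr (QuotientGroup.mk φ)) = 2 * c0 D (ρ φ) + 1 := rfl

omit [Nontrivial R] in
/-- the neighbours of a vertex of the first kind -/
theorem adj_inl {g : H} {x : Vx D ρ} (h : (Tr D ρ).Adj (Sum.inl (QuotientGroup.mk g)) x) :
    ∃ a ∈ Ah k ρ, x = Sum.inr (QuotientGroup.mk (g * a)) := by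
  obtain ⟨g', ⟨h1, h2⟩ | ⟨h1, h2⟩⟩ := h
  · have h3 : (QuotientGroup.mk g : H ⧸ Ah k ρ) = QuotientGroup.mk g' := Sum.inl.inj h1
    rw [QuotientGroup.eq] at h3
    exact ⟨g⁻¹ * g', h3, by rw [h2, mul_inv_cancel_left]⟩
  · cases h2

omit [Nontrivial R] in
/-- the neighbours of a vertex of the second kind -/
theorem adj_inr {g : H} {x : Vx D ρ} (h : (Tr D ρ).Adj (Sum.inr (QuotientGroup.mk g)) x) :
    ∃ b ∈ Bh D ρ, x = Sum.inl (QuotientGroup.mk (g * b)) := by
  obtain ⟨g', ⟨h1, h2⟩ | ⟨h1, h2⟩⟩ := h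
  · cases h1
  · have h3 : (QuotientGroup.mk g : H ⧸ Bh D ρ) = QuotientGroup.mk g' := Sum.inr.inj h2
    rw [QuotientGroup.eq] at h3
    exact ⟨g⁻¹ * g', h3, by rw [h1, mul_inv_cancel_left]⟩

theorem acyclic : (Tr D ρ).IsAcyclic := by
  apply Pool.Agent.Zk9.PP.acyclic_of_level _ (lvl D ρ)
  · rintro u v ⟨g, ⟨rfl, rfl⟩ | ⟨rfl, rfl⟩⟩
    · rw [lvl_inl, lvl_inr]; omega
    · rw [lvl_inl, lvl_inr]; omega
  · rintro (v | v) u u' h1 h2 h3 h4
    · obtain ⟨g, rfl⟩ := QuotientGroup.mk_surjective v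
      obtain ⟨a, ha, rfl⟩ := adj_inl D ρ h1
      obtain ⟨a', ha', rfl⟩ := adj_inl D ρ h2
      rw [lvl_inl, lvl_inr] at h3 h4
      congr 1
      rw [QuotientGroup.eq]
      by_contra hne
      have hmem : a⁻¹ * a' ∈ Ah k ρ := mul_mem (inv_mem ha) ha'
      have e0 : (g * a)⁻¹ * (g * a') = a⁻¹ * a' := by group
      rw [e0] at hne
      have e1 : ρ (g * a') = ρ (g * a) * ρ (a⁻¹ * a') := by
        rw [← map_mul]
        congr 1
        group
      have e2 : lv D (ρ (g * a)) = lv D (ρ g) := by rw [map_mul, lv_mul D ((mem_Ah ρ).1 ha)]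
      refine key_A D (g := ρ (g * a)) ((mem_Ah ρ).1 hmem) (fun h => hne ((mem_Bh D ρ).2 h)) ?_ ?_
      · omega
      · rw [← e1]
        omega
    · obtain ⟨g, rfl⟩ := QuotientGroup.mk_surjective v
      obtain ⟨b, hb, rfl⟩ := adj_inr D ρ h1
      obtain ⟨b', hb', rfl⟩ := adj_inr D ρ h2
      rw [lvl_inl, lvl_inr] at h3 h4
      congr 1
      rw [QuotientGroup.eq]
      have hmem : b⁻¹ * b' ∈ Bh D ρ := mul_mem (inv_mem hb) hb'
      have e0 : (g * b)⁻¹ * (g * b') = b⁻¹ * b' := by group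
      rw [e0]
      have e1 : ρ (g * b') = ρ (g * b) * ρ (b⁻¹ * b') := by
        rw [← map_mul]
        congr 1
        group
      have e2 : c0 D (ρ (g * b)) = c0 D (ρ g) := by rw [map_mul, c0_mul D ((mem_Bh D ρ).1 hb)]
      refine (mem_Ah ρ).2 (key_B D (g := ρ (g * b)) ((mem_Bh D ρ).1 hmem) ?_ ?_)
      · omega
      · rw [← e1]
        omega

theorem tree (h : Ah k ρ ⊔ Bh D ρ = ⊤) : (Tr D ρ).IsTree :=
  ⟨cosetGraph_connected _ _ h, acyclic D ρ⟩

omit [Nontrivial R] in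
theorem fix_inl {g x : H} : x • (Sum.inl (QuotientGroup.mk g) : Vx D ρ) =
    Sum.inl (QuotientGroup.mk g) ↔ g⁻¹ * x * g ∈ Ah k ρ := by
  rw [Sum.smul_inl, Sum.inl_injective.eq_iff]
  change (QuotientGroup.mk (x * g) : H ⧸ Ah k ρ) = QuotientGroup.mk g ↔ _
  rw [eq_comm, QuotientGroup.eq, ← mul_assoc]

omit [Nontrivial R] in
theorem fix_inr {g x : H} : x • (Sum.inr (QuotientGroup.mk g) : Vx D ρ) =
    Sum.inr (QuotientGroup.mk g) ↔ g⁻¹ * x * g ∈ Bh D ρ := by
  rw [Sum.smul_inr, Sum.inr_injective.eq_iff]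
  change (QuotientGroup.mk (x * g) : H ⧸ Bh D ρ) = QuotientGroup.mk g ↔ _
  rw [eq_comm, QuotientGroup.eq, ← mul_assoc]

/-- the scalar matrices -/
def Sc (k : Type) {R : Type} [Field k] [Ring R] [Algebra k R] (g : G2 R) : Prop :=
  ∃ c : k, ∀ i j, (g : Matrix (Fin 2) (Fin 2) R) i j = if i = j then algebraMap k R c else 0

omit [Nontrivial R] in
theorem Sc.comm {s g : G2 R} (h : Sc k s) : s * g = g * s := by
  obtain ⟨c, hc⟩ := h
  apply Units.ext
  ext i j
  rw [mul2, mul2, hc, hc, hc, hc]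
  fin_cases i <;> fin_cases j <;> simp [Algebra.commutes]

/-- **the matrices which fix three consecutive edges** -/
theorem rigid {s a b : G2 R} (h1 : s ∈ A k R) (h2 : s ∈ B D) (ha : a ∈ A k R) (haB : a ∉ B D)
    (hb : b ∈ B D) (hbA : b ∉ A k R) (h3 : a⁻¹ * s * a ∈ B D) (h4 : b⁻¹ * s * b ∈ A k R) :
    Sc k s := by
  have hinj : Function.Injective (algebraMap k R) := (algebraMap k R).injective
  obtain ⟨s', hs'⟩ := mem_A.1 h1
  obtain ⟨a', ha'⟩ := mem_A.1 ha
  obtain ⟨⟨p, hp0, hp⟩, ⟨r, hr0, hr⟩⟩ := B_diag hb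
  obtain ⟨x, hx⟩ : ∃ x, x = (s' : Matrix (Fin 2) (Fin 2) k) 0 0 := ⟨_, rfl⟩
  obtain ⟨y, hy⟩ : ∃ y, y = (s' : Matrix (Fin 2) (Fin 2) k) 0 1 := ⟨_, rfl⟩
  obtain ⟨z, hz⟩ : ∃ z, z = (s' : Matrix (Fin 2) (Fin 2) k) 1 1 := ⟨_, rfl⟩
  have s10 : (s : Matrix (Fin 2) (Fin 2) R) 1 0 = 0 := h2
  have b10 : (b : Matrix (Fin 2) (Fin 2) R) 1 0 = 0 := hb
  have s00 : (s : Matrix (Fin 2) (Fin 2) R) 0 0 = algebraMap k R x := by rw [hs', hx]
  have s01 : (s : Matrix (Fin 2) (Fin 2) R) 0 1 = algebraMap k R y := by rw [hs', hy]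
  have s11 : (s : Matrix (Fin 2) (Fin 2) R) 1 1 = algebraMap k R z := by rw [hs', hz]
  -- first step: the diagonal entries are equal
  have hxz : x = z := by
    by_contra hne
    obtain ⟨t, ht⟩ : ∃ t, t = b⁻¹ * s * b := ⟨_, rfl⟩
    rw [← ht] at h4
    obtain ⟨t', ht'⟩ := mem_A.1 h4
    have e1 : b * t = s * b := by
      rw [ht]
      group
    have t10 : (t : Matrix (Fin 2) (Fin 2) R) 1 0 = 0 := by
      rw [ht]
      exact mem_B.1 (mul_mem (mul_mem (inv_mem hb) h2) hb)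
    have e2 := congrArg (fun g : G2 R => (g : Matrix (Fin 2) (Fin 2) R) 1 1) e1
    have e3 := congrArg (fun g : G2 R => (g : Matrix (Fin 2) (Fin 2) R) 0 1) e1
    simp only [mul2, b10, s10, s00, s01, s11, zero_mul, zero_add, ← hp, ← hr, ht'] at e2 e3
    rw [← map_mul, ← map_mul] at e2
    have e4 : (t' : Matrix (Fin 2) (Fin 2) k) 1 1 = z := by
      have := hinj e2
      rw [mul_comm] at this
      exact mul_right_cancel₀ hr0 this
    rw [e4] at e3
    -- `p t01 + b01 z = x b01 + y r`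
    have e5 : (b : Matrix (Fin 2) (Fin 2) R) 0 1 * algebraMap k R (z - x) =
        algebraMap k R (y * r - p * (t' : Matrix (Fin 2) (Fin 2) k) 0 1) := by
      rw [map_sub, map_sub, mul_sub, map_mul, map_mul]
      rw [← Algebra.commutes x] 
      have e6 : (b : Matrix (Fin 2) (Fin 2) R) 0 1 * algebraMap k R z =
          algebraMap k R x * (b : Matrix (Fin 2) (Fin 2) R) 0 1 + algebraMap k R y * algebraMap k R r -
            algebraMap k R p * algebraMap k R ((t' : Matrix (Fin 2) (Fin 2) k) 0 1) := by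
        rw [← e3]
        abel
      rw [e6]
      abel
    have hzx : z - x ≠ 0 := sub_ne_zero.2 fun h => hne h.symm
    have e7 : (b : Matrix (Fin 2) (Fin 2) R) 0 1 = algebraMap k R
        ((y * r - p * (t' : Matrix (Fin 2) (Fin 2) k) 0 1) * (z - x)⁻¹) := by
      rw [map_mul, ← e5, mul_assoc, ← map_mul, mul_inv_cancel₀ hzx, map_one, mul_one]
    apply hbA
    refine key_B D (g := 1) hb ?_ ?_
    · refine max_le le_rfl (c1_le D fun i => ?_)
      have : D.n (((1 : G2 R) : Matrix (Fin 2) (Fin 2) R) i 1) = 0 := by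
        rw [Units.val_one, Matrix.one_apply]
        split_ifs
        · exact D.n_one
        · exact D.n_zero
      omega
    · rw [one_mul]
      have hall : ∀ i j, D.n ((b : Matrix (Fin 2) (Fin 2) R) i j) = 0 := by
        intro i j
        fin_cases i <;> fin_cases j
        · show D.n ((b : Matrix (Fin 2) (Fin 2) R) 0 0) = 0
          rw [← hp, D.n_alg]
        · show D.n ((b : Matrix (Fin 2) (Fin 2) R) 0 1) = 0
          rw [e7, D.n_alg]
        · show D.n ((b : Matrix (Fin 2) (Fin 2) R) 1 0) = 0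
          rw [b10, D.n_zero]
        · show D.n ((b : Matrix (Fin 2) (Fin 2) R) 1 1) = 0
          rw [← hr, D.n_alg]
      refine max_le (c0_le D fun i => ?_) (c1_le D fun i => ?_)
      · rw [hall]; exact Nat.zero_le _
      · rw [hall]; exact Nat.zero_le _
  -- second step: the entry off the diagonal is zero
  have hy0 : y = 0 := by
    have hne : (a' : Matrix (Fin 2) (Fin 2) k) 1 0 ≠ 0 := by
      intro h
      apply haB
      rw [mem_B, ha', h, map_zero]
    obtain ⟨t, ht⟩ : ∃ t, t = a⁻¹ * s * a := ⟨_, rfl⟩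
    rw [← ht] at h3
    have e1 : a * t = s * a := by
      rw [ht]
      group
    have t10 : (t : Matrix (Fin 2) (Fin 2) R) 1 0 = 0 := mem_B.1 h3
    obtain ⟨⟨w, -, hw⟩, -⟩ := B_diag h3
    have e2 := congrArg (fun g : G2 R => (g : Matrix (Fin 2) (Fin 2) R) 1 0) e1
    have e3 := congrArg (fun g : G2 R => (g : Matrix (Fin 2) (Fin 2) R) 0 0) e1
    simp only [mul2, t10, s10, s00, s01, s11, zero_mul, zero_add, mul_zero, add_zero, ← hw,
      ha'] at e2 e3
    rw [← map_mul, ← map_mul] at e2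
    rw [← map_mul, ← map_mul, ← map_mul, ← map_add] at e3
    have e4 := hinj e2
    have e5 := hinj e3
    have e6 : w = z := by
      rw [mul_comm] at e4
      exact mul_right_cancel₀ hne e4
    rw [e6, hxz] at e5
    have e7 : y * (a' : Matrix (Fin 2) (Fin 2) k) 1 0 = 0 := by
      have : z * (a' : Matrix (Fin 2) (Fin 2) k) 0 0 = (a' : Matrix (Fin 2) (Fin 2) k) 0 0 * z :=
        mul_comm _ _
      rw [this] at e5
      exact (left_eq_add.1 e5)
    exact (mul_eq_zero.1 e7).resolve_right hne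
  refine ⟨x, fun i j => ?_⟩
  fin_cases i <;> fin_cases j
  · exact s00
  · show (s : Matrix (Fin 2) (Fin 2) R) 0 1 = 0
    rw [s01, hy0, map_zero]
  · exact s10
  · show (s : Matrix (Fin 2) (Fin 2) R) 1 1 = algebraMap k R x
    rw [s11, hxz]

end Pool.Agent.Zk85.GL
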